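import Pool.Agent.H73.S3.Enr

/-!
# [H88 OW QDF] MP_b39724_nt, stage 3, `p = 2`: quasi Lie functionals (S1 of think 1824), definitions

`S` a group with letters `y a`, `P` acts on `S`, `R` a subgroup of `P`.
* `QB y e R X κ B`: forms `B i j` on the layers, `i + j = m + 1`, with `B (y a) z = X a z`, Jacobi identity, `B u v = - B v u`, `κ g ⁅u, v⁆ = B u v - B (g⁻¹ u) (g⁻¹ v)` for `g ∈ R`;
  `e` the precision of the values (for `S = Sp Pa α`: `e = Pa.q m`, the precision of the layer `m + 1`).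
  (The good ones are the `B u v = - lam ⁅u, v⁆`, `κ g = g lam - lam`.) `QX`: there is such a `B`.
* `AD.eX x κ`: the family of the letters: `(x j, 0)` at the letters `pp`, `(0, ζ_j (κ ∘ ph))` at the other ones.
* `Rh`: the image of the Galois group in `P` (the range of `ph` for all configurations). `xf`, `etX`: the family of a configuration of letters. `NXX`: the part of `NX` which belongs to a quasi Lie functional.
-/

set_option autoImplicit false

open scoped NumberField commutatorElement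
open IsDedekindDomain
open scoped Classical

noncomputable section

namespace H88.OW

open H63.MA H38.BB H38.BG H57.PC H57.BRA H77.WD H77.WE H77.PC3 H35.CF H35.UB H77.S3 H71.S3 H1.S3
  H73.S3

attribute [local instance 50] Fintype.ofFinite

section qb

variable {S P A : Type} [Group S] [Group P] [MulDistribMulAction P S] {q m : ℕ}

/-- quasi Lie functional: forms on the layers -/
structure QB (y : A → S) (e : ℕ) (R : Subgroup P) (X : A → Du S q m) (κ : P → Du S q (m + 1))
    (B : ∀ i j : ℕ, Gr S i →+ Gr S j →+ ZMod q) : Prop where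
  gen : ∀ a z, B 1 m (gk 1 (y a)) z = (X a).ap z
  sk : ∀ i j, 1 ≤ i → 1 ≤ j → i + j = m + 1 → ∀ a b, B i j a b + B j i b a = 0
  jac : ∀ i j k, 1 ≤ i → 1 ≤ j → 1 ≤ k → i + j + k = m + 1 → ∀ u ∈ gm S i, ∀ v ∈ gm S j,
    ∀ w ∈ gm S k, B (i + j) k (gk (i + j) ⁅u, v⁆) (gk k w) =
      B i (j + k) (gk i u) (gk (j + k) ⁅v, w⁆) - B j (i + k) (gk j v) (gk (i + k) ⁅u, w⁆)
  eqv : ∀ g ∈ R, ∀ i j, 1 ≤ i → 1 ≤ j → i + j = m + 1 → ∀ u ∈ gm S i, ∀ v ∈ gm S j,
    (κ g).ap (gk (m + 1) ⁅u, v⁆) =
      B i j (gk i u) (gk j v) - B i j (g⁻¹ • gk i u) (g⁻¹ • gk j v)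
  pr : ∀ i j a b, e • B i j a b = 0
  ze : ∀ g, g ∉ R → κ g = 0
  out : ∀ i j, ¬(1 ≤ i ∧ 1 ≤ j ∧ i + j = m + 1) → B i j = 0

/-- `X`, `κ` are the functionals of a quasi Lie functional -/
def QX (y : A → S) (e : ℕ) (R : Subgroup P) (X : A → Du S q m) (κ : P → Du S q (m + 1)) : Prop :=
  ∃ B, QB y e R X κ B

variable {J V : Type} (Y : AD S P J V)

/-- the family of a quasi Lie functional -/
def AD.eX (x : J → Du S q m) (κ : P → Du S q (m + 1)) (j : Y.Jf) :
    Du S q m × Du S q (m + 1) :=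
  if Y.pp j then (x j, 0) else
    (0, zeta (fun w => κ (Y.ph w)) FreeGroup.of Y.W (Y.bl (Y.pj j)) j)

end qb

section nt

variable {K : Type} [Field K] [NumberField K] {Ω : Type} [Field Ω] [Algebra K Ω]
  {p N : ℕ} {ζ : K} {D : RD0 K p ζ} {Q : DP K Ω} {A : GS D Ω} {P : Type} [Group P]
  {c : CL p N P} {S : Type} [Group S] [MulDistribMulAction P S] {q m : ℕ}

/-- the functionals at the letters of a configuration -/
def xf {g : ℕ} (x : Px c → Du S q m) (f : Pl K → Option (Px c)) : Pl K ⊕ Fin g → Du S q m :=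
  Sum.elim (fun v => (f v).elim 0 x) fun _ => 0

variable (G : SG c S) (B : SD D Q A) (X : FD A P S) (W : WF A)

/-- the image of the Galois group -/
def Rh : Subgroup P := (hat W.L A X.φ).range

/-- the family of a configuration -/
def etX (T : ℝ) (Zc : Finset (Pl K)) (f : Pl K → Option (Px c))
    (x : (Px c → Du S q m) × (P → Du S q (m + 1))) :
    (adf G B X W T Zc f).Jf → Du S q m × Du S q (m + 1) :=
  AD.eX (adf G B X W T Zc f) (xf x.1 f) x.2

variable (q m) in
/-- the quasi Lie functionals -/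
def QBs (e : ℕ) [Fintype S] [Fintype P] [NeZero q] :
    Finset ((Px c → Du S q m) × (P → Du S q (m + 1))) :=
  Finset.univ.filter fun x => QX G.y e (Rh X W) x.1 x.2

/-- the part of `NX` which belongs to a quasi Lie functional -/
def NXX [Fintype S] [Fintype P] [NeZero q] (T : ℝ) (Zc : Finset (Pl K))
    (wt : (Pl K → Option (Px c)) → ℂ) (x : (Px c → Du S q m) × (P → Du S q (m + 1))) : ℂ :=
  ∑ f ∈ Cf Zc (Px c), wt f *
    if (adf G B X W T Zc f).Hk (etX G B X W T Zc f x) ∧
      ¬(adf G B X W T Zc f).Sv (etX G B X W T Zc f x) then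
    (adf G B X W T Zc f).Mn fun τ =>
      (adf G B X W T Zc f).Hh m τ ((adf G B X W T Zc f).vl τ) (etX G B X W T Zc f x) else 0

end nt

end H88.OW
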