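import Pool.Agent.H88.OW.Qdf
import Pool.Agent.H73.S3.Cen
import Pool.Agent.H73.S3.Rei
import Pool.Agent.H51.S3.Hse
import Pool.Agent.H73.S3.Adf

/-!
# [H88 OW DIC] MP_b39724_nt, stage 3, `p = 2` (S1 of think 1824): a rich configuration without linked tuples belongs to a quasi Lie functional, and conversely

`Frw G q m e`: the property of the group `S` (all tuples unlinked gives a quasi Lie functional of the precision `e`); `Frv G q m e`: the converse and the uniqueness of `κ`.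
* `dic`: a rich configuration with `Hh ≠ 0` without linked tuples: the family is `etX f x` for some `x` with `QX`.
* `etx_ulk`: the family `etX f x` has no linked tuples. `etx_inj`: `x` is determined by the family if `f` is rich. `etx_ff`: `Ff`.
-/

set_option autoImplicit false

open scoped NumberField commutatorElement
open IsDedekindDomain
open scoped Classical

noncomputable section

namespace H88.OW

open H63.MA H38.BB H38.BG H57.PC H57.BRA H77.WD H77.WE H77.PC3 H35.CF H35.UB H77.S3 H71.S3 H1.S3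
  H73.S3

attribute [local instance 50] Fintype.ofFinite

section fr

variable {p N : ℕ} {P : Type} [Group P] {c : CL p N P} {S : Type} [Group S]
  [MulDistribMulAction P S]

/-- all tuples unlinked gives a quasi Lie functional -/
def Frw (G : SG c S) (q m e : ℕ) : Prop :=
  ∀ (ι : Type) (s : ι → Px c) (χ : ι → Du S q m) (Q : Subgroup (Sd P (Du S q (m + 1)))),
    (∀ (a : Px c) (F : Finset ι), F.card ≤ m + 1 → ∃ v, v ∉ F ∧ s v = a) →
    (∀ (v : ι), ∀ z ∈ gm S m, (∀ s, z * s = s * z) → G.pi z = 1 → (χ v).ap (gk m z) = 0) →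
    (∀ D : Fin (m + 1) → ι, Function.Injective D →
      Ulk Q (fun k => G.y (s (D k))) fun k => χ (D k)) →
    ∃ (x : Px c → Du S q m) (κ : P → Du S q (m + 1)),
      QX G.y e (Q.map (Sd.pr (F := P) (N := Du S q (m + 1)))) x κ ∧ (∀ v, χ v = x (s v)) ∧
        ∀ u ∈ Q, u.n = κ u.x

/-- the converse, and the uniqueness of `κ` -/
def Frv (G : SG c S) (q m e : ℕ) : Prop :=
  ∀ (R : Subgroup P) (x : Px c → Du S q m) (κ : P → Du S q (m + 1)), QX G.y e R x κ →
    (∀ κ' : P → Du S q (m + 1), QX G.y e R x κ' → κ' = κ) ∧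
    (∀ g ∈ R, ∀ h ∈ R, κ (g * h) = κ g + g • κ h) ∧
    ∀ (Q : Subgroup (Sd P (Du S q (m + 1)))), (∀ u ∈ Q, u.x ∈ R ∧ u.n = κ u.x) →
      ∀ s : Fin (m + 1) → Px c, Ulk Q (fun k => G.y (s k)) fun k => x (s k)

end fr

/-- the values of the crossed homomorphism are in the group of the values -/
theorem kk_qp {S P : Type} [Group S] [Group P] [MulDistribMulAction P S] {J V : Type} {q m : ℕ}
    (X : AD S P J V) (k : FreeGroup J → Du S q (m + 1)) (hk : X.CHp k) (w : FreeGroup J) :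
    (⟨k w, X.ph w⟩ : Sd P (Du S q (m + 1))) ∈ X.Qp k := by
  have one : k 1 = 0 := by
    have h1 := hk 1 1
    rw [mul_one, map_one, one_smul] at h1
    exact left_eq_add.1 h1
  have inv : ∀ a, k a⁻¹ = -(X.ph a⁻¹ • k a) := by
    intro a
    have h1 := hk a⁻¹ a
    rw [inv_mul_cancel, one] at h1
    exact eq_neg_of_add_eq_zero_left h1.symm
  refine FreeGroup.induction_on w ?_ ?_ ?_ ?_
  · rw [one, map_one]
    exact one_mem _
  · intro j
    exact Subgroup.subset_closure ⟨j, rfl⟩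
  · intro j hj
    rw [inv, map_inv]
    exact inv_mem hj
  · intro a b ha hb
    rw [hk, map_mul]
    exact mul_mem ha hb

section nt

variable {K : Type} [Field K] [NumberField K] {Ω : Type} [Field Ω] [Algebra K Ω]
  {p N : ℕ} {ζ : K} {D : RD0 K p ζ} {Q : DP K Ω} {A : GS D Ω} {P : Type} [Group P]
  {c : CL p N P} {S : Type} [Group S] [MulDistribMulAction P S] {q m ep : ℕ}

/-- the image in `P` of the group of the values is `Rh` -/
theorem qp_map (G : SG c S) (B : SD D Q A) (X : FD A P S) (W : WF A) (T : ℝ) (Zc : Finset (Pl K)) (hXo : X.Ok G B W)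
    (f : Pl K → Option (Px c)) (k : FW A → Du S q (m + 1)) (hk : (adf G B X W T Zc f).CHp k) :
    ((adf G B X W T Zc f).Qp k).map (Sd.pr (F := P) (N := Du S q (m + 1))) = Rh X W := by
  unfold Rh
  rw [← ph_hat G B X W hXo T Zc f]
  refine le_antisymm ?_ ?_
  · unfold AD.Qp
    rw [Subgroup.map_le_iff_le_comap, Subgroup.closure_le]
    rintro u ⟨j, rfl⟩
    exact ⟨FreeGroup.of j, rfl⟩
  · rintro g ⟨w, rfl⟩
    exact ⟨_, kk_qp _ k hk w, rfl⟩

/-- THEOREM: a rich configuration without linked tuples belongs to a quasi Lie functional -/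
theorem dic [Fintype S] [Fintype P] [NeZero q] (hp : p.Prime) (G : SG c S) (B : SD D Q A)
    (X : FD A P S) (W : WF A) {k Mw c₀ : ℕ} (T : ℝ) (Zc : Finset (Pl K))
    (hZE : Disjoint Zc X.E) (hXo : X.Ok G B W) (hm : 1 ≤ m) (hF : Frw G q m ep) (M : ℕ)
    (hM : m + 2 ≤ M) (f : Pl K → Option (Px c)) (hr : Rich X W T Zc M f)
    (hok : (adf G B X W T Zc f).Ok p k Mw q c₀ G.Pi) (e : Pl K ⊕ Fin A.g → El S P q m)
    (hff : (adf G B X W T Zc f).Ff ((adf G B X W T Zc f).et e)) (τ : Pl K → S)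
    (x : Pl K ⊕ Fin A.g → SP S P)
    (hx : ∀ j ∈ (adf G B X W T Zc f).Jf,
      (x j).right = (adf G B X W T Zc f).ph ((adf G B X W T Zc f).W j))
    (hH : (adf G B X W T Zc f).Hh m τ x ((adf G B X W T Zc f).et e) ≠ 0)
    (hU : ∀ v : Fin (m + 1) → Pl K, Function.Injective v →
      (∀ k, v k ∈ sp Zc f ∧ PPc X W T (v k)) →
      Ulk ((adf G B X W T Zc f).Qp ((adf G B X W T Zc f).kk ((adf G B X W T Zc f).et e)))
        (fun k => (adf G B X W T Zc f).y (Sum.inl (v k))) fun k => (e (Sum.inl (v k))).1.1) :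
    ∃ x : (Px c → Du S q m) × (P → Du S q (m + 1)), x ∈ QBs q m G X W ep ∧
      (adf G B X W T Zc f).et e = etX G B X W T Zc f x := by
  -- the letters
  have hs : ∀ v : {v : Pl K // v ∈ sp Zc f ∧ PPc X W T v}, ∃ a : Px c, f v.1 = some a :=
    fun v => Option.ne_none_iff_exists'.1 (mem_sp.1 v.2.1).2
  choose a ha using hs
  have hy : ∀ v : {v : Pl K // v ∈ sp Zc f ∧ PPc X W T v},
      (adf G B X W T Zc f).y (Sum.inl v.1) = G.y (a v) := by
    intro v
    have h1 : v.1 ∈ Zc := (mem_sp.1 v.2.1).1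
    have h2 : v.1 ∉ X.E := Finset.disjoint_left.1 hZE h1
    unfold AD.y
    simp only [adf, Sum.elim_inl, if_neg h2, if_pos h1, ha, Option.elim]
    rfl
  have hJ : ∀ v : {v : Pl K // v ∈ sp Zc f ∧ PPc X W T v},
      (Sum.inl v.1 : Pl K ⊕ Fin A.g) ∈ (adf G B X W T Zc f).Jf := by
    intro v
    show (Sum.inl v.1 : Pl K ⊕ Fin A.g) ∈ (sp Zc f ∪ X.E).disjSum Finset.univ
    rw [Finset.inl_mem_disjSum, Finset.mem_union]
    exact Or.inl v.2.1
  have hkx := (hk_iff (adf G B X W T Zc f) hp hok m ((adf G B X W T Zc f).et e)).1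
  obtain ⟨x', κ, hQX, hχ, hκ⟩ := hF {v : Pl K // v ∈ sp Zc f ∧ PPc X W T v} a
    (fun v => (e (Sum.inl v.1)).1.1)
    ((adf G B X W T Zc f).Qp ((adf G B X W T Zc f).kk ((adf G B X W T Zc f).et e)))
    (by
      intro b F hFc
      have h1 : (F.image Subtype.val).card <
          (Zc.filter fun v => f v = some b ∧ PPc X W T v).card := by
        have h2 := hr b
        have h3 : (F.image Subtype.val).card ≤ F.card := Finset.card_image_le
        omega
      obtain ⟨v, hv1, hv2⟩ := Finset.exists_mem_notMem_of_card_lt_card h1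
      rw [Finset.mem_filter] at hv1
      obtain ⟨hv3, hv4, hv5⟩ := hv1
      have hv6 : v ∈ sp Zc f := by
        rw [mem_sp]
        refine ⟨hv3, ?_⟩
        rw [hv4]
        exact Option.some_ne_none _
      refine ⟨⟨v, hv6, hv5⟩, fun h => hv2 (Finset.mem_image.2 ⟨_, h, rfl⟩), ?_⟩
      have h4 := ha ⟨v, hv6, hv5⟩
      rw [hv4] at h4
      exact (Option.some.inj h4).symm)
    (by
      intro v z hz hzc hzp
      refine cen _ hok m hm τ x hx _ ⟨Sum.inl v.1, hJ v⟩ v.2 z hz hzc ?_ hH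
      rw [SG.Pi_mk]
      show G.pi z * (1 : P) = 1
      rw [hzp, mul_one])
    (by
      intro D' hD'
      have h2 := hU (fun k => (D' k).1) (fun i j hij => hD' (Subtype.ext hij)) fun k => (D' k).2
      simp only [hy] at h2
      exact h2)
  rw [qp_map G B X W T Zc hXo f _ hkx.ch] at hQX
  have hkk : (adf G B X W T Zc f).kk ((adf G B X W T Zc f).et e) =
      fun w => κ ((adf G B X W T Zc f).ph w) :=
    funext fun w => hκ _ (kk_qp _ _ hkx.ch w)
  refine ⟨(x', κ), Finset.mem_filter.2 ⟨Finset.mem_univ _, hQX⟩, ?_⟩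
  funext j
  have h1 := hff j
  unfold etX AD.eX
  by_cases hj : (adf G B X W T Zc f).pp j
  · rw [if_pos hj] at h1 ⊢
    obtain ⟨v | i, hj'⟩ := j
    · refine Prod.ext ?_ h1
      have h2 := hχ ⟨v, hj⟩
      show (e (Sum.inl v)).1.1 = (f v).elim 0 x'
      rw [ha ⟨v, hj⟩]
      exact h2
    · exact absurd hj not_false
  · rw [if_neg hj] at h1 ⊢
    refine Prod.ext h1 ?_
    have h2 := hkx.ze j hj
    rw [hkk] at h2
    exact h2.symm

/-- the superfluous components are `0` -/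
theorem etx_ff (G : SG c S) (B : SD D Q A) (X : FD A P S) (W : WF A) (T : ℝ)
    (Zc : Finset (Pl K)) (f : Pl K → Option (Px c))
    (x : (Px c → Du S q m) × (P → Du S q (m + 1))) :
    (adf G B X W T Zc f).Ff (etX G B X W T Zc f x) := by
  intro j
  unfold etX AD.eX
  by_cases h : (adf G B X W T Zc f).pp j
  · rw [if_pos h, if_pos h]
  · rw [if_neg h, if_neg h]

/-- the right part of a letter is in `Rh` -/
theorem ph_rh (G : SG c S) (B : SD D Q A) (X : FD A P S) (W : WF A) (T : ℝ) (Zc : Finset (Pl K)) (hXo : X.Ok G B W)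
    (f : Pl K → Option (Px c)) (w : FW A) : (adf G B X W T Zc f).ph w ∈ Rh X W := by
  rw [ph_hat G B X W hXo T Zc f]
  exact ⟨w, rfl⟩

/-- the crossed homomorphism of a quasi Lie functional -/
theorem etx_kk [Fintype S] [Fintype P] [NeZero q] (hp : p.Prime) (G : SG c S) (B : SD D Q A)
    (X : FD A P S) (W : WF A) {k Mw c₀ : ℕ} (T : ℝ) (Zc : Finset (Pl K))
    (hZE : Disjoint Zc X.E) (hXo : X.Ok G B W) (hF : Frv G q m ep)
    (f : Pl K → Option (Px c)) (hok : (adf G B X W T Zc f).Ok p k Mw q c₀ G.Pi)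
    (x : (Px c → Du S q m) × (P → Du S q (m + 1))) (hx : x ∈ QBs q m G X W ep) :
    (adf G B X W T Zc f).Kx (etX G B X W T Zc f x) (fun w => x.2 ((adf G B X W T Zc f).ph w)) ∧
    (adf G B X W T Zc f).kk (etX G B X W T Zc f x) =
      fun w => x.2 ((adf G B X W T Zc f).ph w) := by
  obtain ⟨-, hcr, -⟩ := hF (Rh X W) x.1 x.2 (Finset.mem_filter.1 hx).2
  have h1 : x.2 1 = 0 := by
    have h := hcr 1 (one_mem _) 1 (one_mem _)
    rw [mul_one, one_smul] at h
    exact left_eq_add.1 h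
  have hK : (adf G B X W T Zc f).Kx (etX G B X W T Zc f x) (fun w => x.2 ((adf G B X W T Zc f).ph w)) := by
    refine ⟨?_, ?_, ?_⟩
    · intro a b
      show x.2 ((adf G B X W T Zc f).ph (a * b)) = _
      rw [map_mul]
      exact hcr _ (ph_rh G B X W T Zc hXo f a) _ (ph_rh G B X W T Zc hXo f b)
    · intro j hj
      show x.2 ((adf G B X W T Zc f).ph (FreeGroup.of j)) = 0
      have h2 : (adf G B X W T Zc f).ph (FreeGroup.of j) = ((adf G B X W T Zc f).t j).right := by
        unfold AD.ph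
        rw [FreeGroup.lift_apply_of]
      have h3 : ((adf G B X W T Zc f).t j).right = 1 := by
        by_cases h : j ∈ (adf G B X W T Zc f).Jf
        · have h4 : (adf G B X W T Zc f).pp j := by
            by_contra h5
            exact hj ⟨h, h5⟩
          rw [hok.pt j h h4]
          rfl
        · rw [hok.t1 j h]
          rfl
      rw [h2, h3, h1]
    · intro j hj
      unfold etX AD.eX
      rw [if_neg hj]
  exact ⟨hK, kx_uniq _ hp hok m _ _ _ (hk_iff _ hp hok m _).1 hK⟩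

/-- the letter at a place of the support -/
theorem adf_y (G : SG c S) (B : SD D Q A) (X : FD A P S) (W : WF A) (T : ℝ) (Zc : Finset (Pl K)) (hZE : Disjoint Zc X.E)
    (f : Pl K → Option (Px c)) {v : Pl K} (hv : v ∈ Zc) {s : Px c} (hs : f v = some s) :
    (adf G B X W T Zc f).y (Sum.inl v) = G.y s := by
  have h2 : v ∉ X.E := Finset.disjoint_left.1 hZE hv
  unfold AD.y
  simp only [adf, Sum.elim_inl, if_neg h2, if_pos hv, hs, Option.elim]
  rfl

/-- the component at a place of the support -/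
theorem etx_pp (G : SG c S) (B : SD D Q A) (X : FD A P S) (W : WF A) (T : ℝ) (Zc : Finset (Pl K))
    (f : Pl K → Option (Px c)) (x : (Px c → Du S q m) × (P → Du S q (m + 1))) {v : Pl K} (hv : v ∈ sp Zc f) (hp : PPc X W T v)
    {s : Px c} (hs : f v = some s) (hj : (Sum.inl v : Pl K ⊕ Fin A.g) ∈ (adf G B X W T Zc f).Jf) :
    (etX G B X W T Zc f x ⟨Sum.inl v, hj⟩).1 = x.1 s := by
  unfold etX AD.eX
  have h1 : (adf G B X W T Zc f).pp (Sum.inl v) := ⟨hv, hp⟩
  rw [if_pos h1]
  show (f v).elim 0 x.1 = x.1 s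
  rw [hs]
  rfl

theorem jf_mem (G : SG c S) (B : SD D Q A) (X : FD A P S) (W : WF A) (T : ℝ) (Zc : Finset (Pl K))
    (f : Pl K → Option (Px c)) {v : Pl K} (hv : v ∈ sp Zc f) : (Sum.inl v : Pl K ⊕ Fin A.g) ∈ (adf G B X W T Zc f).Jf := by
  show (Sum.inl v : Pl K ⊕ Fin A.g) ∈ (sp Zc f ∪ X.E).disjSum Finset.univ
  rw [Finset.inl_mem_disjSum, Finset.mem_union]
  exact Or.inl hv

/-- THEOREM: the family of a quasi Lie functional has no linked tuples -/
theorem etx_ulk [Fintype S] [Fintype P] [NeZero q] (hp : p.Prime) (G : SG c S) (B : SD D Q A)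
    (X : FD A P S) (W : WF A) {k Mw c₀ : ℕ} (T : ℝ) (Zc : Finset (Pl K))
    (hZE : Disjoint Zc X.E) (hXo : X.Ok G B W) (hF : Frv G q m ep)
    (f : Pl K → Option (Px c)) (hok : (adf G B X W T Zc f).Ok p k Mw q c₀ G.Pi)
    (x : (Px c → Du S q m) × (P → Du S q (m + 1))) (hx : x ∈ QBs q m G X W ep)
    (e : Pl K ⊕ Fin A.g → El S P q m)
    (he : (adf G B X W T Zc f).et e = etX G B X W T Zc f x)
    (v : Fin (m + 1) → Pl K) (hv : ∀ k, v k ∈ sp Zc f ∧ PPc X W T (v k)) :
    Ulk ((adf G B X W T Zc f).Qp ((adf G B X W T Zc f).kk ((adf G B X W T Zc f).et e)))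
      (fun k => (adf G B X W T Zc f).y (Sum.inl (v k))) fun k => (e (Sum.inl (v k))).1.1 := by
  obtain ⟨-, hcr, hul⟩ := hF (Rh X W) x.1 x.2 (Finset.mem_filter.1 hx).2
  have h1 : x.2 1 = 0 := by
    have h := hcr 1 (one_mem _) 1 (one_mem _)
    rw [mul_one, one_smul] at h
    exact left_eq_add.1 h
  have hs : ∀ k, ∃ s, f (v k) = some s := fun k => Option.ne_none_iff_exists'.1 (mem_sp.1 (hv k).1).2
  choose s hs using hs
  have h2 : (fun k => (adf G B X W T Zc f).y (Sum.inl (v k))) = fun k => G.y (s k) :=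
    funext fun k => adf_y G B X W T Zc hZE f (mem_sp.1 (hv k).1).1 (hs k)
  have h3 : (fun k => (e (Sum.inl (v k))).1.1) = fun k => x.1 (s k) := by
    funext k
    have h4 := congrFun he ⟨Sum.inl (v k), jf_mem G B X W T Zc f (hv k).1⟩
    have h5 : ((adf G B X W T Zc f).et e ⟨Sum.inl (v k), jf_mem G B X W T Zc f (hv k).1⟩).1 = (e (Sum.inl (v k))).1.1 := rfl
    rw [← h5, h4, etx_pp G B X W T Zc f x (hv k).1 (hv k).2 (hs k)]
  rw [h2, h3]
  refine hul _ ?_ s
  -- the group of the values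
  let R' : Subgroup (Sd P (Du S q (m + 1))) :=
    { carrier := {u | u.x ∈ Rh X W ∧ u.n = x.2 u.x}
      mul_mem' := by
        rintro u w ⟨h6, h7⟩ ⟨h8, h9⟩
        refine ⟨mul_mem h6 h8, ?_⟩
        show u.n + u.x • w.n = x.2 (u.x * w.x)
        rw [hcr _ h6 _ h8, h7, h9]
      one_mem' := ⟨one_mem _, h1.symm⟩
      inv_mem' := by
        rintro u ⟨h6, h7⟩
        refine ⟨inv_mem h6, ?_⟩
        show -(u.x⁻¹ • u.n) = x.2 u.x⁻¹
        have h8 := hcr _ (inv_mem h6) _ h6
        rw [inv_mul_cancel, h1] at h8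
        rw [h7]
        exact (eq_neg_of_add_eq_zero_left h8.symm).symm }
  have h6 : (adf G B X W T Zc f).Qp ((adf G B X W T Zc f).kk ((adf G B X W T Zc f).et e)) ≤ R' := by
    unfold AD.Qp
    rw [Subgroup.closure_le]
    rintro u ⟨j, rfl⟩
    refine ⟨ph_rh G B X W T Zc hXo f _, ?_⟩
    show (adf G B X W T Zc f).kk ((adf G B X W T Zc f).et e) (FreeGroup.of j) = x.2 ((adf G B X W T Zc f).ph (FreeGroup.of j))
    rw [he, (etx_kk hp G B X W T Zc hZE hXo hF f hok x hx).2]
  exact fun u hu => h6 hu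

/-- the quasi Lie functional is determined by the family -/
theorem etx_inj [Fintype S] [Fintype P] [NeZero q] (G : SG c S) (B : SD D Q A)
    (X : FD A P S) (W : WF A) (T : ℝ) (Zc : Finset (Pl K)) (hZE : Disjoint Zc X.E)
    (hF : Frv G q m ep) (f : Pl K → Option (Px c)) (hr : Rich X W T Zc 1 f)
    (x x' : (Px c → Du S q m) × (P → Du S q (m + 1))) (hx : x ∈ QBs q m G X W ep)
    (hx' : x' ∈ QBs q m G X W ep) (h : etX G B X W T Zc f x = etX G B X W T Zc f x') : x = x' := by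
  have h1 : x.1 = x'.1 := by
    funext s
    obtain ⟨v, hv⟩ := Finset.card_pos.1 (Nat.lt_of_lt_of_le Nat.zero_lt_one (hr s))
    rw [Finset.mem_filter] at hv
    obtain ⟨hv1, hv2, hv3⟩ := hv
    have hv4 : v ∈ sp Zc f := mem_sp.2 ⟨hv1, by rw [hv2]; exact Option.some_ne_none _⟩
    have h2 := congrFun h ⟨Sum.inl v, jf_mem G B X W T Zc f hv4⟩
    rw [← etx_pp G B X W T Zc f x hv4 hv3 hv2 (jf_mem G B X W T Zc f hv4), h2,
      etx_pp G B X W T Zc f x' hv4 hv3 hv2 (jf_mem G B X W T Zc f hv4)]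
  have h2 : x'.2 = x.2 := by
    refine (hF (Rh X W) x.1 x.2 (Finset.mem_filter.1 hx).2).1 x'.2 ?_
    rw [h1]
    exact (Finset.mem_filter.1 hx').2
  exact Prod.ext h1 h2.symm

end nt

end H88.OW
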