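import Pool.Agent.H88.OW.Psi
import Pool.Agent.H88.OW.Dic
import Pool.Agent.H88.S3.Fre2

/-!
# [H88 OW FRV] the property `Frv` of H88/OW/Dic for `S = Sp Pa (Px c)` (S1 of think 1824): the tuples of a quasi Lie functional are unlinked; `κ` is unique and a crossed homomorphism

`ulk_ex`: from the functional `ψ` of H88/OW/Psi for the letters `Fin (m + 1) × Q` and the multilinear expansion (H88/S3/Gev, `ml`).
-/

set_option autoImplicit false

open scoped Classical commutatorElement

noncomputable section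

namespace H88.OW

open Pool.Agent.H61.Tu H77.PC3 H35.UB H62.BL H88.S3 H82.S3

open H73.S3 (gm Gr gk Du SG cjx SP il Ulk gk_surj gk_pow gk_of gk_one gk_mul gk_inv gk_zero gm_comm' gm_comm ap_smul gm_anti
  gm_smul smul_gk)

section gen

variable {S : Type} [Group S]

/-- the lower central series is a filtration -/
theorem fl_gm : Fl (gm S) where
  top := rfl
  anti i := by
    rcases Nat.eq_zero_or_pos i with h | h
    · subst h
      exact le_rfl
    · exact gm_anti i
  com i j a ha b hb := by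
    rcases Nat.eq_zero_or_pos i with h | h
    · subst h
      rw [Nat.zero_add]
      have h1 := gm_comm' j (v := a) hb
      rw [commutatorElement_def] at h1
      exact gm_anti j h1
    · rcases Nat.eq_zero_or_pos j with h' | h'
      · subst h'
        rw [Nat.add_zero]
        have h1 := gm_comm i (v := b) ha
        rw [commutatorElement_def] at h1
        exact gm_anti i h1
      · exact gm_comm2 h h' ha hb

theorem lf_du {q m : ℕ} (ψ : Du S q m) : LF (gm S) m (fun u => ψ.ap (gk m u)) := by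
  refine ⟨fun x hx y hy => ?_, fun x hx => ?_⟩
  · beta_reduce
    rw [gk_mul hx hy, map_add]
  · beta_reduce
    rw [(gk_zero (gm_anti m hx)).2 hx, map_zero]

theorem rn_one {G : Type} [Group G] (w : List G) (h : (1 : G) ∈ w) : H62.BL.rn w = 1 := by
  induction w with
  | nil => simp at h
  | cons a w ih =>
    by_cases hw : w = []
    · subst hw
      rw [List.mem_singleton] at h
      exact h.symm
    · rw [rn_com a hw]
      rcases List.mem_cons.1 h with h1 | h1
      · rw [← h1, commutatorElement_one_left]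
      · rw [ih h1, commutatorElement_one_right]

end gen

section ps

variable {P : Par} {α : Type}

/-- a homomorphism which kills some letters -/
theorem pk_ex {β : Type} (A : β → Prop) : ∃ f : Sp P β →* Sp P β, ∀ b, f (sy P b) = if A b then 1 else sy P b :=
  lft_exists P (T := Sp P β) (gam_c P) (fun _ _ _ ht => gam_pow P ht) fun b => if A b then 1 else sy P b

end ps

section uniq

variable {P : Par} {α : Type} {q m : ℕ} {Q : Type} [Group Q] [MulAction Q α]

theorem qb_uniq (hm : 1 ≤ m) (hmc : m + 1 ≤ P.c) (hq : P.q 0 ∣ q) {R : Subgroup Q}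
    {X : α → Du (Sp P α) q m} {κ κ' : Q → Du (Sp P α) q (m + 1)}
    {B B' : ∀ i j : ℕ, Gr (Sp P α) i →+ Gr (Sp P α) j →+ ZMod q} (h : QB (sy P) (P.q m) R X κ B)
    (h' : QB (sy P) (P.q m) R X κ' B') : B = B' ∧ κ = κ' := by
  have hB : B = B' := by
    obtain ⟨de, -, hd, h1, -, -, hb, -⟩ := qb_de hm hmc hq h
    obtain ⟨de', -, hd', h1', -, -, hb', -⟩ := qb_de hm hmc hq h'
    have e : de = de' := de_uniq h1 h1' fun s => by rw [hd, hd']
    subst e
    funext i j
    by_cases hij : 1 ≤ i ∧ 1 ≤ j ∧ i + j = m + 1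
    · refine AddMonoidHom.ext fun x => AddMonoidHom.ext fun y => ?_
      obtain ⟨u, hu, rfl⟩ := gk_surj i x
      obtain ⟨v, hv, rfl⟩ := gk_surj j y
      obtain ⟨a, ha⟩ := rq_ex (P := P) (q := q) hij.1 (by omega) hu
      obtain ⟨b, hb2⟩ := rq_ex (P := P) (q := q) hij.2.1 (by omega) hv
      rw [hb i j hij.1 hij.2.1 hij.2.2 _ _ _ _ ha hb2, hb' i j hij.1 hij.2.1 hij.2.2 _ _ _ _ ha hb2]
    · rw [h.out i j hij, h'.out i j hij]
  subst hB
  refine ⟨rfl, funext fun g => ?_⟩
  by_cases hg : g ∈ R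
  · refine du_cext hm fun u v hv => ?_
    rw [h.eqv g hg 1 m le_rfl hm (by omega) u (Subgroup.mem_top _) v hv,
      h'.eqv g hg 1 m le_rfl hm (by omega) u (Subgroup.mem_top _) v hv]
  · rw [h.ze g hg, h'.ze g hg]

theorem qb_ch (hm : 1 ≤ m) {R : Subgroup Q} {X : α → Du (Sp P α) q m} {κ : Q → Du (Sp P α) q (m + 1)}
    {B : ∀ i j : ℕ, Gr (Sp P α) i →+ Gr (Sp P α) j →+ ZMod q} (h : QB (sy P) (P.q m) R X κ B) (g : Q) (hg : g ∈ R)
    (g' : Q) (hg' : g' ∈ R) : κ (g * g') = κ g + g • κ g' := by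
  refine du_cext hm fun u v hv => ?_
  have e1 : ∀ (a : Gr (Sp P α) (m + 1)), (κ g + g • κ g').ap a = (κ g).ap a + (κ g').ap (g⁻¹ • a) := fun _ => rfl
  have hc : ⁅u, v⁆ ∈ gm (Sp P α) (m + 1) := gm_comm' m hv
  have e2 : g⁻¹ • ⁅u, v⁆ = ⁅g⁻¹ • u, g⁻¹ • v⁆ := by
    simp only [commutatorElement_def, smul_mul', smul_inv']
  have hv' : g⁻¹ • v ∈ gm (Sp P α) m := gm_smul g⁻¹ hv
  rw [e1, smul_gk _ hc, e2, h.eqv _ (mul_mem hg hg') 1 m le_rfl hm (by omega) u (Subgroup.mem_top _) v hv,
    h.eqv g hg 1 m le_rfl hm (by omega) u (Subgroup.mem_top _) v hv,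
    h.eqv g' hg' 1 m le_rfl hm (by omega) _ (Subgroup.mem_top _) _ hv', smul_gk _ (Subgroup.mem_top _), smul_gk _ hv,
    smul_gk _ (Subgroup.mem_top _), smul_gk _ hv, smul_gk _ (Subgroup.mem_top _), smul_gk _ hv', mul_inv_rev, mul_smul,
    mul_smul]
  ring

end uniq

section ulk

variable {p N : ℕ} {P : Type} [Group P] {c : CL p N P}

theorem ulk_ex (Pa : Par) {q m : ℕ} [Finite P] [NeZero q] (hm : 1 ≤ m) (hmc : m + 1 ≤ Pa.c) (hq : Pa.q 0 ∣ q) {R : Subgroup P}
    {X : Px c → Du (Sp Pa (Px c)) q m} {κ : P → Du (Sp Pa (Px c)) q (m + 1)}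
    {B : ∀ i j : ℕ, Gr (Sp Pa (Px c)) i →+ Gr (Sp Pa (Px c)) j →+ ZMod q} (h : QB (sy Pa) (Pa.q m) R X κ B)
    (Q : Subgroup (H1.S3.Sd P (Du (Sp Pa (Px c)) q (m + 1)))) (hQ : ∀ u ∈ Q, u.x ∈ R ∧ u.n = κ u.x)
    (s : Fin (m + 1) → Px c) : Ulk Q (fun k => sy Pa (s k)) fun k => X (s k) := by
  have hfx : Finite (Px c) := Subtype.finite
  have hfs : Finite (H1.S3.Sd P (Du (Sp Pa (Px c)) q (m + 1))) :=
    Finite.of_injective (fun u => (u.n, u.x)) fun u v e => by
      have e1 : u.n = v.n := congrArg Prod.fst e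
      have e2 : u.x = v.x := congrArg Prod.snd e
      cases u
      cases v
      simp only at e1 e2
      subst e1
      subst e2
      rfl
  have hfq : Fintype Q := Fintype.ofFinite Q
  let β : Type := Fin (m + 1) × Q
  let lb : β → Px c := fun b => (b.2 : H1.S3.Sd P (Du (Sp Pa (Px c)) q (m + 1))).x • s b.1
  let ow : β → Option (Fin (m + 1)) := fun b => some b.1
  have hpke : ∀ k : Fin (m + 1), ∃ f : Sp Pa β →* Sp Pa β, ∀ b, f (sy Pa b) = if ow b = some k then 1 else sy Pa b :=
    fun k => by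
      obtain ⟨f, hf⟩ := pk_ex (P := Pa) fun b : β => ow b = some k
      refine ⟨f, fun b => ?_⟩
      rw [hf]
      by_cases hb : ow b = some k
      · rw [if_pos hb, if_pos hb]
      · rw [if_neg hb, if_neg hb]
  choose pk hpk using hpke
  obtain ⟨ψ, h1, -, h3⟩ := psi hm hmc hq (by omega) h lb ow (smap Pa lb) (smap_sy Pa lb) pk hpk
  -- words
  have hsr : ∀ w : List β, w ≠ [] → H62.BL.rn (w.map (sy Pa)) ∈ gm (Sp Pa β) w.length := by
    intro w hw
    have := rn_gm (w.map (sy Pa)) (by simpa using hw)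
    rwa [List.length_map] at this
  have hke : ∀ (w : List β) (k : Fin (m + 1)), k ∈ w.map Prod.fst → pk k (H62.BL.rn (w.map (sy Pa))) = 1 := by
    intro w k hk
    have hw : w ≠ [] := by
      rintro rfl
      simp at hk
    rw [rn_map (pk k) _ (by simpa using hw), List.map_map]
    refine rn_one _ ?_
    obtain ⟨b, hb, rfl⟩ := List.mem_map.1 hk
    refine List.mem_map.2 ⟨b, hb, ?_⟩
    rw [Function.comp_apply, hpk, if_pos rfl]
  have hevw : ∀ w : List β, w ≠ [] → smap Pa lb (H62.BL.rn (w.map (sy Pa))) =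
      H62.BL.rn (w.map fun a => (a.2 : H1.S3.Sd P (Du (Sp Pa (Px c)) q (m + 1))).x • sy Pa (s a.1)) := by
    intro w hw
    rw [rn_map (smap Pa lb) _ (by simpa using hw), List.map_map]
    congr 1
    refine List.map_congr_left fun b _ => ?_
    rw [Function.comp_apply, smap_sy, smul_sy]
  let lam : (List β → ZMod q) →ₗ[ZMod q] ZMod q :=
    { toFun := fun y => sw (m + 1) fun w => y w * if (w.map Prod.fst).getLast? = some (0 : Fin (m + 1)) then
        ψ.ap (gk (m + 1) (H62.BL.rn (w.map (sy Pa)))) else 0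
      map_add' := fun y z => by
        rw [sw, sw, sw, ← Finset.sum_add_distrib]
        exact Finset.sum_congr rfl fun t _ => add_mul _ _ _
      map_smul' := fun r y => by
        rw [RingHom.id_apply, smul_eq_mul, sw, sw, Finset.mul_sum]
        exact Finset.sum_congr rfl fun t _ => mul_assoc _ _ _ }
  have hlam : ∀ w : List β, (w.map Prod.fst).Perm (List.finRange (m + 1)) →
      lam (H62.BL.br w) = ψ.ap (gk (m + 1) (H62.BL.rn (w.map (sy Pa)))) := by
    intro w hw
    have hl : w.length = m + 1 := by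
      have := hw.length_eq
      rwa [List.length_map, List.length_finRange] at this
    have hnd : (w.map Prod.fst).Nodup := hw.nodup_iff.2 (List.nodup_finRange _)
    have h0 : (0 : Fin (m + 1)) ∈ w.map Prod.fst := hw.mem_iff.2 (List.mem_finRange _)
    have h4 := ml (R := ZMod q) (Prod.fst : β → Fin (m + 1)) 0 (fl_gm (S := Sp Pa β)) (g := sy Pa) (fun _ => Subgroup.mem_top _)
      w hnd h0 (fun u => ψ.ap (gk (m + 1) u)) (by rw [hl]; exact lf_du ψ)
    rw [hl] at h4
    exact h4.symm
  refine ⟨lam, fun k w hw => ?_, fun u w hw => ?_⟩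
  · have hl : w.length = m := by
      have := hw.length_eq
      rw [List.length_cons, List.length_map, List.length_finRange] at this
      omega
    have hw0 : w ≠ [] := fun h => by rw [h, List.length_nil] at hl; omega
    have hw' : (((k, (1 : Q)) :: w : List β).map Prod.fst).Perm (List.finRange (m + 1)) := hw
    rw [hlam _ hw', List.map_cons, rn_com _ (by simpa using hw0)]
    have hv : H62.BL.rn (w.map (sy Pa)) ∈ gm (Sp Pa β) m := by
      have := hsr w hw0
      rwa [hl] at this
    have h4 := h1 1 m le_rfl hm (by omega) {k} (Finset.univ.erase k) (by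
        rw [← Finset.insert_eq, Finset.insert_erase (Finset.mem_univ k)])
      (sy Pa (k, (1 : Q))) (Subgroup.mem_top _) _ hv
      (fun k' hk' => by
        rw [Finset.mem_singleton] at hk'
        rw [hpk, hk', if_pos rfl])
      (fun k' hk' => by
        have hne : k' ≠ k := Finset.ne_of_mem_erase hk'
        refine hke w k' ?_
        have h5 : k' ∈ k :: w.map Prod.fst := hw.mem_iff.2 (List.mem_finRange _)
        exact (List.mem_cons.1 h5).resolve_left hne)
    have e1 : smap Pa lb (sy Pa (k, (1 : Q))) = sy Pa (s k) := by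
      rw [smap_sy]
      show sy Pa ((1 : P) • s k) = _
      rw [one_smul]
    rw [h4, neg_neg, e1, h.gen, hevw w hw0]
  · have hl : w.length = m + 1 := by
      have := hw.length_eq
      rwa [List.length_map, List.length_finRange] at this
    have hw0 : w ≠ [] := fun h => by rw [h, List.length_nil] at hl; omega
    let σ : β → β := fun a => (a.1, u⁻¹ * a.2)
    have hwσ : ((w.map σ).map Prod.fst).Perm (List.finRange (m + 1)) := by
      rw [List.map_map]
      exact hw
    have hu := hQ u.1 u.2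
    have h4 := h3 (u : H1.S3.Sd P (Du (Sp Pa (Px c)) q (m + 1))).x hu.1 σ (fun b => by
        show ((u⁻¹ * b.2 : Q) : H1.S3.Sd P (Du (Sp Pa (Px c)) q (m + 1))).x • s b.1 = _
        show ((u : H1.S3.Sd P (Du (Sp Pa (Px c)) q (m + 1))).x⁻¹ * (b.2 : H1.S3.Sd P (Du (Sp Pa (Px c)) q (m + 1))).x) • s b.1 = _
        rw [mul_smul])
      (fun b => rfl) (smap Pa σ) (smap_sy Pa σ) (H62.BL.rn (w.map (sy Pa))) (by
        have := hsr w hw0
        rwa [hl] at this)
      (fun k => hke w k (hw.mem_iff.2 (List.mem_finRange _)))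
    have e1 : lam (H62.BL.br (w.map fun a => (a.1, u⁻¹ * a.2))) =
        ψ.ap (gk (m + 1) (smap Pa σ (H62.BL.rn (w.map (sy Pa))))) := by
      rw [rn_map (smap Pa σ) _ (by simpa using hw0), List.map_map]
      have e2 := hlam _ hwσ
      rw [List.map_map] at e2
      refine e2.trans ?_
      congr 2
      congr 1
      exact List.map_congr_left fun b _ => (smap_sy Pa σ b).symm
    rw [e1, hlam w hw, h4, ← hu.2, hevw w hw0]

theorem frv (Pa : Par) (G : SG c (Sp Pa (Px c))) (hG : ∀ x, G.y x = sy Pa x) [Finite P] (m : ℕ) (hm : 1 ≤ m)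
    (hmc : m + 1 ≤ Pa.c) (q : ℕ) [NeZero q] (hq : Pa.q 0 ∣ q) : Frv G q m (Pa.q m) := by
  have e : G.y = sy Pa := funext hG
  intro R x κ hx
  rw [e] at hx
  obtain ⟨B, hB⟩ := hx
  refine ⟨fun κ' hκ' => ?_, fun g hg g' hg' => qb_ch hm hB g hg g' hg', fun Q hQ s => ?_⟩
  · rw [e] at hκ'
    obtain ⟨B', hB'⟩ := hκ'
    exact (qb_uniq hm hmc hq hB' hB).2
  · have h1 := ulk_ex Pa hm hmc hq hB Q hQ s
    rw [← e] at h1
    exact h1

end ulk

end H88.OW
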