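import Pool.Agent.H88.OW.Frm
import Pool.Agent.H88.OW.Dic
import Pool.Agent.H82.S3.Sgi
import Pool.Agent.H82.S3.Fre

/-!
# [H88 OW FRW] the property `Frw` of H88/OW/Dic for `S = Sp Pa (Px c)`: all tuples unlinked gives a quasi Lie functional (S1 of think 1824)

`frw`: `1 ≤ m`, `m + 1 ≤ Pa.c`, `q` a power of `p` divisible by the precisions; no condition on `p`.
-/

set_option autoImplicit false

open scoped Classical commutatorElement

noncomputable section

namespace H88.OW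

open Pool.Agent.H61.Tu H77.PC3 H35.UB H62.BL H88.S3 H82.S3

open H73.S3 (gm Gr gk Du SG cjx SP il Ulk gk_surj gk_pow gk_of gk_one gk_mul gk_inv gk_zero gm_comm' gm_comm ap_smul)

section fre

variable {p N : ℕ} {P : Type} [Group P] {c : CL p N P}

theorem frw (Pa : Par) (G : SG c (Sp Pa (Px c))) (hG : ∀ x, G.y x = sy Pa x)
    (hT : ∀ u, G.pi u ^ (Pa.p ^ Pa.M Pa.c) = 1) (m : ℕ) (hm : 1 ≤ m) (hmc : m + 1 ≤ Pa.c) (q r : ℕ) (hq : q = Pa.p ^ r)
    (hr : Pa.M 1 ≤ r) : Frw G q m (Pa.q m) := by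
  obtain ⟨n, rfl⟩ : ∃ n, m = n + 1 := ⟨m - 1, by omega⟩
  have hqd : ∀ k, k + 1 ≤ Pa.c → Pa.q k ∣ q := by
    intro k hk
    rw [hq]
    exact pow_dvd_pow _ ((mok_le Pa.ok (by omega) (by omega) hk).trans hr)
  intro ι s χ Q hocc hcen hU
  have hs : Function.Surjective s := fun a => by
    obtain ⟨v, -, hv⟩ := hocc a ∅ (by simp)
    exact ⟨v, hv⟩
  letI act : MulAction Q (Px c) := MulAction.compHom (Px c) ((H1.S3.Sd.pr (F := P) (N := Du (Sp Pa (Px c)) q (n + 1 + 1))).comp Q.subtype)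
  have hact : ∀ (u : Q) (a : Px c), u • a = cjx (u : H1.S3.Sd P (Du (Sp Pa (Px c)) q (n + 1 + 1))).x a := fun _ _ => rfl
  let chi : ι → LL (ZMod q) (Px c) (n + 1) →ₗ[ZMod q] ZMod q := fun v =>
    AddMonoidHom.toZModLinearMap q ((χ v).ap.comp (lq Pa (by omega) (hqd n (by omega))))
  let kap : Q → LL (ZMod q) (Px c) (n + 2) →ₗ[ZMod q] ZMod q := fun u =>
    AddMonoidHom.toZModLinearMap q ((u : H1.S3.Sd P (Du (Sp Pa (Px c)) q (n + 1 + 1))).n.ap.comp (lq Pa (n := n + 1) (by omega) (hqd (n + 1) (by omega))))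
  have hchi : ∀ v y, chi v y = (χ v).ap (lq Pa (by omega) (hqd n (by omega)) y) := fun _ _ => rfl
  have hkap : ∀ u y, kap u y = (u : H1.S3.Sd P (Du (Sp Pa (Px c)) q (n + 1 + 1))).n.ap (lq Pa (n := n + 1) (by omega) (hqd (n + 1) (by omega)) y) :=
    fun _ _ => rfl
  have hchid : ∀ v, chi v = dl Pa (n + 1) (χ v) := fun v => LinearMap.ext fun y => by
    rw [hchi, dl_succ (by omega) (hqd n (by omega))]
  have hkapd : ∀ u : Q, kap u = dl Pa (n + 1 + 1) (u : H1.S3.Sd P (Du (Sp Pa (Px c)) q (n + 1 + 1))).n := fun u => LinearMap.ext fun y => by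
    rw [hkap, dl_succ (n := n + 1) (by omega) (hqd (n + 1) (by omega))]
  have hev : ∀ (D : Fin (n + 1 + 1) → ι) (w : List (Fin (n + 1 + 1) × Q)),
      (w.map fun a => (a.2 : H1.S3.Sd P (Du (Sp Pa (Px c)) q (n + 1 + 1))).x • G.y (s (D a.1))) = (w.map (ew s D)).map (sy Pa) := by
    intro D w
    rw [List.map_map]
    refine List.map_congr_left fun a _ => ?_
    rw [G.smul_y, hG]
    rfl
  have hH : ∀ D : Fin (n + 1 + 1) → ι, Function.Injective D → ∃ lam, P1 (G := Q) s chi D lam ∧ P2 s kap D lam := by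
    intro D hD
    obtain ⟨lam, a1, a2⟩ := hU D hD
    refine ⟨lam, fun k w hw => ?_, fun u w hw => ?_⟩
    · have hl : (w.map (ew s D)).length = n + 1 := by
        have := hw.length_eq
        rw [List.length_cons, List.length_map, List.length_finRange] at this
        rw [List.length_map]
        omega
      rw [wv_eq _ hl, hchi, lq_br Pa _ _ _ hl, ← hev, ← a1 k w hw]
    · have hl : (w.map (ew s D)).length = n + 1 + 1 := by
        have := hw.length_eq
        rw [List.length_map, List.length_finRange] at this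
        rw [List.length_map]
        omega
      rw [wv_eq _ hl, hkap, lq_br Pa _ _ _ hl, ← hev, ← a2 u w hw]
  obtain ⟨hsame, de, hd, h1, hsk, hze, heq⟩ := qln (G := Q) (n := n + 1) (by omega) hocc hH
  -- the functionals of the letters
  choose sg hsg using hs
  have hχ : ∀ v, χ v = χ (sg (s v)) := by
    intro v
    have h2 := hsame v (sg (s v)) (hsg (s v)).symm
    refine H73.S3.du_ext fun a => ?_
    obtain ⟨y, rfl⟩ := lq_surj Pa (α := Px c) (n := n) (by omega) (hqd n (by omega)) a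
    rw [← hchi, ← hchi, h2]
  -- the precision
  have h0 : ∀ v a, (χ v).ap (Pa.q (n + 1) • a) = 0 := by
    intro v a
    obtain ⟨u, hu, rfl⟩ := gk_surj (n + 1) a
    rw [← gk_pow hu]
    refine hcen v _ (pow_mem hu _) (fun s => pow_cen Pa hu s) ?_
    obtain ⟨k, hk⟩ : Pa.p ^ Pa.M Pa.c ∣ Pa.q (n + 1) := pow_dvd_pow _ (mok_le Pa.ok (by omega) (by omega) le_rfl)
    rw [map_pow, hk, pow_mul, hT, one_pow]
  have hkc : ∀ (v : ι) (b : FreeLieAlgebra (ZMod q) (Px c)), (Pa.q (n + 1) : ZMod q) * xc (n + 1) (chi v) b = 0 := by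
    intro v b
    have e1 : xc (n + 1) (chi v) b = (χ v).ap (lq Pa (by omega) (hqd n (by omega)) ⟨pr (n + 1) (ev b), pr_ev _ _⟩) := rfl
    rw [e1, ← nsmul_eq_mul, ← map_nsmul]
    exact h0 v _
  have hk : ∀ a b, (Pa.q (n + 1) : ZMod q) * de a b = 0 := by
    have e : ((Pa.q (n + 1) : ZMod q) • de) = 0 := by
      refine de_uniq (fun a b c => ?_) (fun a b c => ?_) fun a => LinearMap.ext fun b => ?_
      · show (Pa.q (n + 1) : ZMod q) • de ⁅a, b⁆ c = (Pa.q (n + 1) : ZMod q) • de a ⁅b, c⁆ - (Pa.q (n + 1) : ZMod q) • de b ⁅a, c⁆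
        rw [h1, smul_sub]
      · show (0 : ZMod q) = 0 - 0
        rw [sub_zero]
      · show (Pa.q (n + 1) : ZMod q) • de (FreeLieAlgebra.of (ZMod q) a) b = 0
        have h3 : de (FreeLieAlgebra.of (ZMod q) a) = xc (n + 1) (chi (sg a)) := by
          have := hd (sg a)
          rwa [hsg] at this
        rw [h3]
        exact hkc _ _
    intro a b
    have := congrArg (fun F : FreeLieAlgebra (ZMod q) (Px c) →ₗ[ZMod q] FreeLieAlgebra (ZMod q) (Px c) →ₗ[ZMod q] ZMod q => F a b) e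
    exact this
  -- the crossed homomorphism
  obtain ⟨R, hR⟩ : ∃ R : Subgroup P, R = Q.map (H1.S3.Sd.pr (F := P) (N := Du (Sp Pa (Px c)) q (n + 1 + 1))) := ⟨_, rfl⟩
  have hRm : ∀ g, g ∈ R ↔ ∃ u : Q, (u : H1.S3.Sd P (Du (Sp Pa (Px c)) q (n + 1 + 1))).x = g := by
    intro g
    rw [hR]
    constructor
    · rintro ⟨u, hu, rfl⟩
      exact ⟨⟨u, hu⟩, rfl⟩
    · rintro ⟨u, rfl⟩
      exact ⟨u.1, u.2, rfl⟩
  let κ : P → Du (Sp Pa (Px c)) q (n + 1 + 1) := fun g =>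
    if h : ∃ u : Q, (u : H1.S3.Sd P (Du (Sp Pa (Px c)) q (n + 1 + 1))).x = g then (h.choose : H1.S3.Sd P (Du (Sp Pa (Px c)) q (n + 1 + 1))).n else 0
  -- the action
  have hac : ∀ (u : Q) (a : FreeLieAlgebra (ZMod q) (Px c)), ac (ZMod q) (Px c) u⁻¹ a =
      ac (ZMod q) (Px c) ((u : H1.S3.Sd P (Du (Sp Pa (Px c)) q (n + 1 + 1))).x)⁻¹ a := by
    intro u a
    have h3 : (ac (ZMod q) (Px c) u⁻¹ : FreeLieAlgebra (ZMod q) (Px c) →ₗ⁅ZMod q⁆ FreeLieAlgebra (ZMod q) (Px c)) =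
        ac (ZMod q) (Px c) ((u : H1.S3.Sd P (Du (Sp Pa (Px c)) q (n + 1 + 1))).x)⁻¹ := by
      unfold ac
      congr 1
    rw [h3]
  obtain ⟨B, hB, _⟩ := qb_of (P := Pa) (q := q) (m := n + 1) (by omega) (by omega) (hqd 0 (by omega)) R (fun a => χ (sg a)) κ de hk
    (fun a => by
      have h3 := hd (sg a)
      rw [hsg, hchid] at h3
      exact h3) h1 hsk
    (fun g hg i j hi hj hij a ha b hb => by
      have hg' := (hRm g).1 hg
      have h3 : κ g = (hg'.choose : H1.S3.Sd P (Du (Sp Pa (Px c)) q (n + 1 + 1))).n := dif_pos hg'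
      have h4 := heq hg'.choose a b
      rw [hac, hac, hg'.choose_spec, hkapd] at h4
      rw [h3]
      exact h4)
    (fun g hg => dif_neg fun h => hg ((hRm g).2 h))
  refine ⟨fun a => χ (sg a), κ, ?_, hχ, fun u hu => ?_⟩
  · rw [← hR]
    refine ⟨B, ?_⟩
    have e : G.y = sy Pa := funext hG
    rw [e]
    exact hB
  · have hg : ∃ u' : Q, (u' : H1.S3.Sd P (Du (Sp Pa (Px c)) q (n + 1 + 1))).x = u.x := ⟨⟨u, hu⟩, rfl⟩
    have h3 : κ u.x = (hg.choose : H1.S3.Sd P (Du (Sp Pa (Px c)) q (n + 1 + 1))).n := dif_pos hg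
    rw [h3]
    refine du_cext (by omega) fun w v hv => ?_
    obtain ⟨a, ha⟩ := rq_ex (P := Pa) (q := q) (i := 1) le_rfl (by omega) (u := w) (Subgroup.mem_top _)
    obtain ⟨b, hb⟩ := rq_ex (P := Pa) (q := q) (i := n + 1) (by omega) (by omega) hv
    have e1 := rq_lie (le_refl 1) (by omega) (by omega) (hqd 0 (by omega)) ha hb
    rw [show 1 + (n + 1) = n + 1 + 1 by omega] at e1
    have e2 := dl_rq (by omega) (by omega) (hqd (n + 1) (by omega)) u.n e1
    have e3 := dl_rq (by omega) (by omega) (hqd (n + 1) (by omega))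
      (hg.choose : H1.S3.Sd P (Du (Sp Pa (Px c)) q (n + 1 + 1))).n e1
    rw [← e2, ← e3]
    have h4 := heq ⟨u, hu⟩ a b
    have h5 := heq hg.choose a b
    rw [hac, hac, hkapd] at h4 h5
    rw [hg.choose_spec] at h5
    have h6 : -xc (n + 1 + 1) (dl Pa (n + 1 + 1) u.n) ⁅a, b⁆ =
        -xc (n + 1 + 1) (dl Pa (n + 1 + 1) (hg.choose : H1.S3.Sd P (Du (Sp Pa (Px c)) q (n + 1 + 1))).n) ⁅a, b⁆ := by
      rw [← h4, ← h5]
    exact neg_inj.1 h6

end fre

end H88.OW
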