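import Pool.Agent.H88.OW.Map

/-!
# [H88 OW PSI] MP_b39724_nt, stage 3, `p = 2` (think 1824, (S4)): the linear functional `psi` of the own letter group

`β` letters with labels `lb : β → α` and own indices `ow : β → Option (Fin M)`, `m + 1 < 2 M` (for example `M = m ≥ 2`, `M = m + 1`). `pk k : Sp P β → Sp P β` kills the letters of own index `k`,
`ev : Sp P β → Sp P α` the evaluation. `B` the forms of a quasi Lie functional on `Sp P α`.
THEOREM `psi`: there is a functional `ψ` of the layer `m + 1` of `Sp P β` with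
* `ψ ⁅u, v⁆ = - B i j (ev u) (ev v)` if `u ∈ gam_i` is killed by the `pk k`, `k ∈ J1`, and `v ∈ gam_j` by those with `k ∈ J2`, `J1 ∪ J2` everything, `i + j = m + 1`;
* `ψ u = 0` if `pk k u = u` for some `k`;
* `ψ (σ u) - ψ u = κ g (ev u)` for the `u` which are killed by all `pk k`; `σ` a permutation of the letters with `lb (σ b) = g⁻¹ lb b`.
Proof. `dh a b = ∑_T (-1)^|T| de (E_T a) (E_T b)`, `E_T` = (kill the letters of index in `T`, then evaluate). A word of length `(m + 1) / 2` does not contain all own indices, so `dh` is alternating (`frp`).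
-/

set_option autoImplicit false

open scoped Classical commutatorElement

noncomputable section

namespace H88.OW

open H62.BL H88.S3 H82.S3 Pool.Agent.H61.Tu

open H73.S3 (gm Gr gk Du gk_surj gk_zero gk_mul gk_inv gk_one gk_of smul_gk gm_comm' gm_comm gm_smul gm_anti gm_succ gm_normal
  gk_conj du_ext ap_smul)

section kl

variable {R : Type} [CommRing R] {α β : Type} {M : ℕ}

variable (R) in
/-- kills the letters of own index in `T` -/
def kL (ow : β → Option (Fin M)) (T : Finset (Fin M)) : FreeLieAlgebra R β →ₗ⁅R⁆ FreeLieAlgebra R β :=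
  FreeLieAlgebra.lift R fun b => if ∃ k ∈ T, ow b = some k then 0 else FreeLieAlgebra.of R b

theorem kL_of (ow : β → Option (Fin M)) (T : Finset (Fin M)) (b : β) :
    kL R ow T (FreeLieAlgebra.of R b) = if ∃ k ∈ T, ow b = some k then 0 else FreeLieAlgebra.of R b :=
  FreeLieAlgebra.lift_of_apply _ _

theorem kL_comp (ow : β → Option (Fin M)) (k : Fin M) (T : Finset (Fin M)) (x : FreeLieAlgebra R β) :
    kL R ow T (kL R ow {k} x) = kL R ow (insert k T) x := by
  have h : (kL R ow T).comp (kL R ow {k}) = kL R ow (insert k T) := by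
    refine FreeLieAlgebra.hom_ext fun b => ?_
    rw [LieHom.comp_apply, kL_of, kL_of]
    by_cases h1 : ow b = some k
    · rw [if_pos ⟨k, Finset.mem_singleton_self k, h1⟩, if_pos ⟨k, Finset.mem_insert_self k T, h1⟩, map_zero]
    · rw [if_neg, kL_of]
      · refine if_congr ?_ rfl rfl
        constructor
        · rintro ⟨k', hk', e⟩
          exact ⟨k', Finset.mem_insert_of_mem hk', e⟩
        · rintro ⟨k', hk', e⟩
          rcases Finset.mem_insert.1 hk' with h2 | h2
          · subst h2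
            exact absurd e h1
          · exact ⟨k', h2, e⟩
      · rintro ⟨k', hk', e⟩
        rw [Finset.mem_singleton] at hk'
        subst hk'
        exact h1 e
  rw [← h]
  rfl

theorem kL_empty (ow : β → Option (Fin M)) (x : FreeLieAlgebra R β) : kL R ow ∅ x = x := by
  have h : kL R ow ∅ = LieHom.id := by
    refine FreeLieAlgebra.hom_ext fun b => ?_
    rw [kL_of, if_neg]
    · rfl
    · rintro ⟨k, hk, _⟩
      simp at hk
  rw [h]
  rfl

theorem kL_fix (ow : β → Option (Fin M)) (k : Fin M) {w : List β} (h : ∀ b ∈ w, ow b ≠ some k) :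
    kL R ow {k} (rb (FreeLieAlgebra.of R) w) = rb (FreeLieAlgebra.of R) w := by
  rw [rb_map]
  refine rb_congr fun b hb => ?_
  rw [kL_of, if_neg]
  rintro ⟨k', hk', e⟩
  rw [Finset.mem_singleton] at hk'
  subst hk'
  exact h b hb e

variable (R) in
/-- evaluation after killing the letters of own index in `T` -/
def EL (lb : β → α) (ow : β → Option (Fin M)) (T : Finset (Fin M)) : FreeLieAlgebra R β →ₗ⁅R⁆ FreeLieAlgebra R α :=
  (FreeLieAlgebra.lift R fun b => FreeLieAlgebra.of R (lb b)).comp (kL R ow T)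

theorem EL_of (lb : β → α) (ow : β → Option (Fin M)) (T : Finset (Fin M)) (b : β) :
    EL R lb ow T (FreeLieAlgebra.of R b) = if ∃ k ∈ T, ow b = some k then 0 else FreeLieAlgebra.of R (lb b) := by
  unfold EL
  rw [LieHom.comp_apply, kL_of]
  split_ifs
  · exact map_zero _
  · exact FreeLieAlgebra.lift_of_apply _ _

theorem EL_kL (lb : β → α) (ow : β → Option (Fin M)) (k : Fin M) (T : Finset (Fin M)) (x : FreeLieAlgebra R β) :
    EL R lb ow T (kL R ow {k} x) = EL R lb ow (insert k T) x := by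
  unfold EL
  rw [LieHom.comp_apply, kL_comp, LieHom.comp_apply]

theorem EL_hl (lb : β → α) (ow : β → Option (Fin M)) (T : Finset (Fin M)) {i : ℕ} {a : FreeLieAlgebra R β}
    (ha : a ∈ HL R β i) : EL R lb ow T a ∈ HL R α i := by
  refine hl_map _ (fun b => ?_) ha
  rw [EL_of]
  split_ifs
  · exact zero_mem _
  · exact hl_of _

theorem alt_zero {A : Type} [AddCommGroup A] (k : Fin M) (f : Finset (Fin M) → A) (h : ∀ T, k ∉ T → f (insert k T) = f T) :
    ∑ T : Finset (Fin M), (-1 : ℤ) ^ T.card • f T = 0 := by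
  have h1 : (Finset.univ : Finset (Finset (Fin M))) = (insert k (Finset.univ.erase k)).powerset := by
    rw [Finset.insert_erase (Finset.mem_univ k), Finset.powerset_univ]
  rw [h1, Finset.sum_powerset_insert (Finset.notMem_erase k _), ← Finset.sum_add_distrib]
  refine Finset.sum_eq_zero fun T hT => ?_
  have hk : k ∉ T := fun hk => Finset.notMem_erase k _ (Finset.mem_powerset.1 hT hk)
  rw [h T hk, Finset.card_insert_of_notMem hk, pow_succ, mul_neg_one, neg_smul, add_neg_cancel]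

variable {B : Type} [AddCommGroup B] [Module R B]

/-- the part of the form with all own indices -/
def dh (lb : β → α) (ow : β → Option (Fin M)) (de : FreeLieAlgebra R α →ₗ[R] FreeLieAlgebra R α →ₗ[R] B) :
    FreeLieAlgebra R β →ₗ[R] FreeLieAlgebra R β →ₗ[R] B :=
  ∑ T : Finset (Fin M), (-1 : ℤ) ^ T.card • de.compl₁₂ (EL R lb ow T : FreeLieAlgebra R β →ₗ[R] FreeLieAlgebra R α)
    (EL R lb ow T : FreeLieAlgebra R β →ₗ[R] FreeLieAlgebra R α)

theorem dh_apply (lb : β → α) (ow : β → Option (Fin M)) (de : FreeLieAlgebra R α →ₗ[R] FreeLieAlgebra R α →ₗ[R] B)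
    (a b : FreeLieAlgebra R β) :
    dh lb ow de a b = ∑ T : Finset (Fin M), (-1 : ℤ) ^ T.card • de (EL R lb ow T a) (EL R lb ow T b) := by
  unfold dh
  rw [LinearMap.sum_apply, LinearMap.sum_apply]
  rfl

theorem dh_jac (lb : β → α) (ow : β → Option (Fin M)) {de : FreeLieAlgebra R α →ₗ[R] FreeLieAlgebra R α →ₗ[R] B}
    (h1 : ∀ a b c, de ⁅a, b⁆ c = de a ⁅b, c⁆ - de b ⁅a, c⁆) (a b c : FreeLieAlgebra R β) :
    dh lb ow de ⁅a, b⁆ c = dh lb ow de a ⁅b, c⁆ - dh lb ow de b ⁅a, c⁆ := by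
  rw [dh_apply, dh_apply, dh_apply, ← Finset.sum_sub_distrib]
  refine Finset.sum_congr rfl fun T _ => ?_
  rw [LieHom.map_lie, LieHom.map_lie, LieHom.map_lie, h1, smul_sub]

theorem dh_sk (lb : β → α) (ow : β → Option (Fin M)) {de : FreeLieAlgebra R α →ₗ[R] FreeLieAlgebra R α →ₗ[R] B}
    (hs : ∀ a b, de a b + de b a = 0) (a b : FreeLieAlgebra R β) : dh lb ow de a b + dh lb ow de b a = 0 := by
  rw [dh_apply, dh_apply, ← Finset.sum_add_distrib]
  refine Finset.sum_eq_zero fun T _ => ?_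
  rw [← smul_add, hs, smul_zero]

theorem dh_fix (lb : β → α) (ow : β → Option (Fin M)) (de : FreeLieAlgebra R α →ₗ[R] FreeLieAlgebra R α →ₗ[R] B) (k : Fin M)
    (a b : FreeLieAlgebra R β) :
    dh lb ow de (kL R ow {k} a) (kL R ow {k} b) = 0 := by
  rw [dh_apply]
  refine alt_zero k _ fun T hT => ?_
  rw [EL_kL, EL_kL, EL_kL, EL_kL, Finset.insert_idem]

theorem dh_alt (lb : β → α) (ow : β → Option (Fin M)) {m : ℕ} (hM : m + 1 < 2 * M)
    {de : FreeLieAlgebra R α →ₗ[R] FreeLieAlgebra R α →ₗ[R] B}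
    (h0 : ∀ i j, i + j ≠ m + 1 → ∀ a ∈ HL R α i, ∀ b ∈ HL R α j, de a b = 0) (w : List β) :
    dh lb ow de (rb (FreeLieAlgebra.of R) w) (rb (FreeLieAlgebra.of R) w) = 0 := by
  by_cases hw : w.length + w.length = m + 1
  · obtain ⟨k, hk⟩ : ∃ k : Fin M, k ∉ (w.filterMap ow).toFinset := by
      by_contra hc
      push Not at hc
      have h1 : (Finset.univ : Finset (Fin M)) ⊆ (w.filterMap ow).toFinset := fun k _ => hc k
      have h2 := Finset.card_le_card h1
      rw [Finset.card_univ, Fintype.card_fin] at h2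
      have h3 := List.toFinset_card_le (w.filterMap ow)
      have h4 := List.length_filterMap_le ow w
      omega
    have hk' : ∀ b ∈ w, ow b ≠ some k := fun b hb e => hk (by
      rw [List.mem_toFinset, List.mem_filterMap]
      exact ⟨b, hb, e⟩)
    have h1 := dh_fix lb ow de k (rb (FreeLieAlgebra.of R) w) (rb (FreeLieAlgebra.of R) w)
    rwa [kL_fix ow k hk'] at h1
  · rw [dh_apply]
    refine Finset.sum_eq_zero fun T _ => ?_
    rw [h0 _ _ hw _ (EL_hl lb ow T (hl_mem rfl)) _ (EL_hl lb ow T (hl_mem rfl)), smul_zero]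

end kl

section gr

variable {P : Par} {β : Type} {q m : ℕ}

/-- functionals of the layer from functionals on the free Lie algebra -/
theorem gr_of (hmc : m + 1 ≤ P.c) (hq : P.q 0 ∣ q) (L : FreeLieAlgebra (ZMod q) β →ₗ[ZMod q] ZMod q)
    (hL : ∀ c ∈ HL (ZMod q) β (m + 1), (P.q m : ZMod q) * L c = 0) :
    ∃ ψ : Du (Sp P β) q (m + 1), ∀ u a, Rq P q (m + 1) u a → ψ.ap (gk (m + 1) u) = L a := by
  have hqm : P.q m ∣ q := (P.q_dvd (Nat.zero_le m) hmc).trans hq
  have wd : ∀ u a, Rq P q (m + 1) u a → ∀ u' a', Rq P q (m + 1) u' a' → gk (m + 1) u = gk (m + 1) u' → L a = L a' := by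
    intro u a ha u' a' ha' h
    obtain ⟨d, hd, rfl⟩ := rq_ker (by omega) hmc hqm ha ha' h
    rw [map_add, map_smul, smul_eq_mul]
    have e : (P.q (m + 1 - 1) : ZMod q) * L d = 0 := hL d hd
    rw [e, add_zero]
  have hr : ∀ x : Gr (Sp P β) (m + 1), ∃ (u : Sp P β) (a : FreeLieAlgebra (ZMod q) β), gk (m + 1) u = x ∧ Rq P q (m + 1) u a := by
    intro x
    obtain ⟨u, hu, rfl⟩ := gk_surj (m + 1) x
    obtain ⟨a, ha⟩ := rq_ex (P := P) (q := q) (by omega) hmc hu
    exact ⟨u, a, rfl, ha⟩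
  choose U A hU hA using hr
  refine ⟨(AddMonoidHom.mk' (fun x => L (A x)) fun x y => ?_ : Gr (Sp P β) (m + 1) →+ ZMod q), fun u a ha => ?_⟩
  · rw [← map_add]
    refine wd _ _ (hA _) _ _ (rq_mul (by omega) hmc (hA x) (hA y)) ?_
    rw [hU, gk_mul (hA x).mem (hA y).mem, hU, hU]
  · exact wd _ _ (hA _) _ _ ha (hU _)

theorem xc_pr {α : Type} (hmc : m + 1 ≤ P.c) (hq : P.q 0 ∣ q) (χ : Du (Sp P α) q (m + 1)) {x : FreeLieAlgebra (ZMod q) α}
    (hx : x ∈ HL (ZMod q) α (m + 1)) : (P.q m : ZMod q) * xc (m + 1) (dl P (m + 1) χ) x = 0 := by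
  have hqm : P.q m ∣ q := (P.q_dvd (Nat.zero_le m) hmc).trans hq
  have h1 := rq_q (P := P) (q := q) (i := m + 1) (by omega) hmc hx
  have h2 := dl_rq (by omega) hmc hqm χ h1
  rw [gk_one, map_zero, map_smul, smul_eq_mul] at h2
  exact h2

end gr

section main

variable {P : Par} {α β : Type} {q m M : ℕ}

/-- THEOREM: the functional of the own letter group -/
theorem psi {Q : Type} [Group Q] [MulAction Q α] (hm : 1 ≤ m) (hmc : m + 1 ≤ P.c) (hq : P.q 0 ∣ q) (hM : m + 1 < 2 * M)
    {R : Subgroup Q} {X : α → Du (Sp P α) q m} {κ : Q → Du (Sp P α) q (m + 1)}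
    {B : ∀ i j : ℕ, Gr (Sp P α) i →+ Gr (Sp P α) j →+ ZMod q} (h : QB (sy P) (P.q m) R X κ B) (lb : β → α)
    (ow : β → Option (Fin M)) (eg : Sp P β →* Sp P α) (heg : ∀ b, eg (sy P b) = sy P (lb b))
    (pk : Fin M → Sp P β →* Sp P β) (hpk : ∀ k b, pk k (sy P b) = if ow b = some k then 1 else sy P b) :
    ∃ ψ : Du (Sp P β) q (m + 1),
      (∀ i j, 1 ≤ i → 1 ≤ j → i + j = m + 1 → ∀ J1 J2 : Finset (Fin M), J1 ∪ J2 = Finset.univ →
        ∀ u ∈ gm (Sp P β) i, ∀ v ∈ gm (Sp P β) j, (∀ k ∈ J1, pk k u = 1) → (∀ k ∈ J2, pk k v = 1) →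
          ψ.ap (gk (m + 1) ⁅u, v⁆) = - B i j (gk i (eg u)) (gk j (eg v))) ∧
      (∀ k, ∀ u ∈ gm (Sp P β) (m + 1), pk k u = u → ψ.ap (gk (m + 1) u) = 0) ∧
      ∀ g ∈ R, ∀ σ : β → β, (∀ b, lb (σ b) = g⁻¹ • lb b) → (∀ b, ow (σ b) = ow b) → ∀ f : Sp P β →* Sp P β,
        (∀ b, f (sy P b) = sy P (σ b)) → ∀ u ∈ gm (Sp P β) (m + 1), (∀ k, pk k u = 1) →
          ψ.ap (gk (m + 1) (f u)) - ψ.ap (gk (m + 1) u) = (κ g).ap (gk (m + 1) (eg u)) := by
  have hqd : ∀ i, i ≤ m + 1 → P.q (i - 1) ∣ q := fun i hi => (P.q_dvd (Nat.zero_le (i - 1)) (by omega)).trans hq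
  obtain ⟨de, hk, hd, h1, hs, h0, hB, he⟩ := qb_de hm hmc hq h
  obtain ⟨Ps, hPs⟩ := H51.S3.frp (dh lb ow de) (dh_jac lb ow h1) (fun u v => dh_sk lb ow hs _ _) (dh_alt lb ow hM h0)
  have hdk : ∀ a b, (P.q m : ZMod q) * dh lb ow de a b = 0 := by
    intro a b
    rw [dh_apply, Finset.mul_sum]
    refine Finset.sum_eq_zero fun T _ => ?_
    rw [mul_smul_comm, hk, smul_zero]
  have hPk : ∀ c ∈ HL (ZMod q) β (m + 1), (P.q m : ZMod q) * (-Ps) c = 0 := by
    intro c hc
    rw [LinearMap.neg_apply, mul_neg, neg_eq_zero]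
    induction hc using Submodule.span_induction with
    | mem x hx =>
      obtain ⟨w, hw, rfl⟩ := hx
      rcases w with _ | ⟨b, w⟩
      · simp at hw
      · have hw0 : w ≠ [] := by
          rintro rfl
          simp at hw
          omega
        rw [rb_cons _ b hw0, hPs]
        exact hdk _ _
    | zero => rw [map_zero, mul_zero]
    | add x y _ _ hx hy => rw [map_add, mul_add, hx, hy, add_zero]
    | smul r x _ hx => rw [map_smul, smul_eq_mul, mul_left_comm, hx, mul_zero]
  obtain ⟨ψ, hψ⟩ := gr_of hmc hq (-Ps) hPk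
  -- the maps represent the homomorphisms
  have hkr : ∀ k, ∀ {i : ℕ}, 1 ≤ i → i ≤ P.c → ∀ {u : Sp P β} {a : FreeLieAlgebra (ZMod q) β}, Rq P q i u a →
      Rq P q i (pk k u) (kL (ZMod q) ow {k} a) := by
    intro k i hi hc u a hu
    refine rq_map (pk k) _ hq (fun b => ?_) hi hc hu
    rw [hpk, kL_of]
    by_cases hb : ow b = some k
    · rw [if_pos hb, if_pos ⟨k, Finset.mem_singleton_self k, hb⟩]
      exact rq_one le_rfl (by omega)
    · rw [if_neg hb, if_neg]
      · exact rq_of hq b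
      · rintro ⟨k', hk', e⟩
        rw [Finset.mem_singleton] at hk'
        subst hk'
        exact hb e
  have her : ∀ {i : ℕ}, 1 ≤ i → i ≤ P.c → ∀ {u : Sp P β} {a : FreeLieAlgebra (ZMod q) β}, Rq P q i u a →
      Rq P q i (eg u) (EL (ZMod q) lb ow ∅ a) := by
    intro i hi hc u a hu
    refine rq_map eg _ hq (fun b => ?_) hi hc hu
    rw [heg, EL_of, if_neg]
    · exact rq_of hq _
    · rintro ⟨k, hk, _⟩
      simp at hk
  -- killed elements
  have hkil : ∀ {i : ℕ}, 1 ≤ i → i ≤ m + 1 → ∀ {u : Sp P β} {a : FreeLieAlgebra (ZMod q) β}, Rq P q i u a → ∀ k, pk k u = 1 →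
      ∀ T : Finset (Fin M), k ∈ T → ∃ c ∈ HL (ZMod q) α i, EL (ZMod q) lb ow T a = (P.q (i - 1) : ZMod q) • c := by
    intro i hi him u a hu k hku T hT
    have e1 := hkr k hi (by omega) hu
    rw [hku] at e1
    obtain ⟨c, hc, e2⟩ := rq_ker hi (by omega) (hqd i him) e1 (rq_one hi (by omega)) rfl
    rw [zero_add] at e2
    refine ⟨EL (ZMod q) lb ow T c, EL_hl lb ow T hc, ?_⟩
    have e3 : EL (ZMod q) lb ow T a = EL (ZMod q) lb ow T (kL (ZMod q) ow {k} a) := by
      rw [EL_kL, Finset.insert_eq_of_mem hT]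
    rw [e3, e2]
    exact (EL (ZMod q) lb ow T : FreeLieAlgebra (ZMod q) β →ₗ[ZMod q] FreeLieAlgebra (ZMod q) α).map_smul _ _
  refine ⟨ψ, fun i j hi hj hij J1 J2 hJ u hu v hv hu1 hv1 => ?_, fun k u hu hku => ?_,
    fun g hg σ hσ1 hσ2 f hf u hu hu1 => ?_⟩
  · obtain ⟨a, ha⟩ := rq_ex (P := P) (q := q) hi (by omega) hu
    obtain ⟨b, hb⟩ := rq_ex (P := P) (q := q) hj (by omega) hv
    have e1 := rq_lie hi hj (by omega) hq ha hb
    rw [hij] at e1
    rw [hψ _ _ e1, LinearMap.neg_apply, hPs, dh_apply, Finset.sum_eq_single (∅ : Finset (Fin M))]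
    · rw [Finset.card_empty, pow_zero, one_smul, hB i j hi hj hij _ _ _ _ (her hi (by omega) ha) (her hj (by omega) hb)]
    · intro T _ hT
      obtain ⟨k, hkT⟩ := Finset.nonempty_iff_ne_empty.2 hT
      have hkJ : k ∈ J1 ∪ J2 := by
        rw [hJ]
        exact Finset.mem_univ k
      rcases Finset.mem_union.1 hkJ with h2 | h2
      · obtain ⟨c, _, e2⟩ := hkil hi (by omega) ha k (hu1 k h2) T hkT
        rw [e2, map_smul, LinearMap.smul_apply, smul_eq_mul, kil (by omega) hmc hk, smul_zero]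
      · obtain ⟨c, _, e2⟩ := hkil hj (by omega) hb k (hv1 k h2) T hkT
        rw [e2, map_smul, smul_eq_mul, kil (by omega) hmc hk, smul_zero]
    · intro hc
      exact absurd (Finset.mem_univ _) hc
  · obtain ⟨a, ha⟩ := rq_ex (P := P) (q := q) (by omega) hmc hu
    have e1 := hkr k (by omega) hmc ha
    rw [hku] at e1
    rw [hψ _ _ e1, LinearMap.neg_apply, neg_eq_zero]
    have key : ∀ x ∈ HL (ZMod q) β (m + 1), Ps (kL (ZMod q) ow {k} x) = 0 := by
      intro x hx
      induction hx using Submodule.span_induction with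
      | mem x hx =>
        obtain ⟨w, hw, rfl⟩ := hx
        rcases w with _ | ⟨b, w⟩
        · simp at hw
        · have hw0 : w ≠ [] := by
            rintro rfl
            simp at hw
            omega
          rw [rb_cons _ b hw0, LieHom.map_lie, hPs]
          exact dh_fix lb ow de k _ _
      | zero => rw [map_zero, map_zero]
      | add x y _ _ hx hy => rw [map_add, map_add, hx, hy, add_zero]
      | smul r x _ hx =>
        have e : kL (ZMod q) ow {k} (r • x) = r • kL (ZMod q) ow {k} x :=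
          (kL (ZMod q) ow {k} : FreeLieAlgebra (ZMod q) β →ₗ[ZMod q] FreeLieAlgebra (ZMod q) β).map_smul r x
        rw [e, map_smul, hx, smul_zero]
    exact key a ha.hl
  · let F : FreeLieAlgebra (ZMod q) β →ₗ⁅ZMod q⁆ FreeLieAlgebra (ZMod q) β :=
      FreeLieAlgebra.lift (ZMod q) fun b => FreeLieAlgebra.of (ZMod q) (σ b)
    have hF : ∀ b, F (FreeLieAlgebra.of (ZMod q) b) = FreeLieAlgebra.of (ZMod q) (σ b) := fun b => FreeLieAlgebra.lift_of_apply _ _
    have hEF : ∀ T x, EL (ZMod q) lb ow T (F x) = ac (ZMod q) α g⁻¹ (EL (ZMod q) lb ow T x) := by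
      intro T x
      have e : (EL (ZMod q) lb ow T).comp F = (ac (ZMod q) α g⁻¹).comp (EL (ZMod q) lb ow T) := by
        refine FreeLieAlgebra.hom_ext fun b => ?_
        rw [LieHom.comp_apply, LieHom.comp_apply, hF, EL_of, EL_of, hσ2]
        split_ifs
        · rw [map_zero]
        · rw [ac_of, hσ1]
      exact congrArg (fun G : FreeLieAlgebra (ZMod q) β →ₗ⁅ZMod q⁆ FreeLieAlgebra (ZMod q) α => G x) e
    have key : ∀ x ∈ HL (ZMod q) β (m + 1), Ps (F x) - Ps x =
        - ∑ T : Finset (Fin M), (-1 : ℤ) ^ T.card • xc (m + 1) (dl P (m + 1) (κ g)) (EL (ZMod q) lb ow T x) := by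
      intro x hx
      induction hx using Submodule.span_induction with
      | mem x hx =>
        obtain ⟨w, hw, rfl⟩ := hx
        rcases w with _ | ⟨b, w⟩
        · simp at hw
        · have hw' : w.length = m := by simpa using hw
          have hw0 : w ≠ [] := by
            rintro rfl
            simp at hw
            omega
          rw [rb_cons _ b hw0, LieHom.map_lie, hPs, hPs, dh_apply, dh_apply, ← Finset.sum_sub_distrib,
            ← Finset.sum_neg_distrib]
          refine Finset.sum_congr rfl fun T _ => ?_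
          rw [hEF, hEF, ← smul_sub, LieHom.map_lie,
            he g hg 1 m le_rfl hm (by omega) _ (EL_hl lb ow T (hl_of b)) _ (EL_hl lb ow T (hl_mem hw')), smul_neg]
      | zero => simp
      | add x y _ _ hx hy =>
        have e : Ps (F (x + y)) - Ps (x + y) = (Ps (F x) - Ps x) + (Ps (F y) - Ps y) := by
          rw [map_add, map_add, map_add]
          ring
        rw [e, hx, hy, ← neg_add, ← Finset.sum_add_distrib]
        congr 1
        refine Finset.sum_congr rfl fun T _ => ?_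
        rw [map_add, map_add, smul_add]
      | smul r x _ hx =>
        have e1 : F (r • x) = r • F x := (F : FreeLieAlgebra (ZMod q) β →ₗ[ZMod q] FreeLieAlgebra (ZMod q) β).map_smul r x
        have e : Ps (F (r • x)) - Ps (r • x) = r * (Ps (F x) - Ps x) := by
          rw [e1, map_smul, map_smul, smul_eq_mul, smul_eq_mul]
          ring
        rw [e, hx, mul_neg, Finset.mul_sum]
        congr 1
        refine Finset.sum_congr rfl fun T _ => ?_
        have e2 : EL (ZMod q) lb ow T (r • x) = r • EL (ZMod q) lb ow T x :=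
          (EL (ZMod q) lb ow T : FreeLieAlgebra (ZMod q) β →ₗ[ZMod q] FreeLieAlgebra (ZMod q) α).map_smul r x
        rw [e2, map_smul, smul_eq_mul, mul_smul_comm]
    obtain ⟨a, ha⟩ := rq_ex (P := P) (q := q) (by omega) hmc hu
    have e1 : Rq P q (m + 1) (f u) (F a) := by
      refine rq_map f F hq (fun b => ?_) (by omega) hmc ha
      rw [hf, hF]
      exact rq_of hq _
    rw [hψ _ _ e1, hψ _ _ ha, LinearMap.neg_apply, LinearMap.neg_apply, ← dl_rq (by omega) hmc (hqd (m + 1) le_rfl) (κ g)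
      (her (by omega) hmc ha)]
    have e2 := key a ha.hl
    rw [Finset.sum_eq_single (∅ : Finset (Fin M))] at e2
    · rw [Finset.card_empty, pow_zero, one_smul] at e2
      linear_combination -e2
    · intro T _ hT
      obtain ⟨k, hkT⟩ := Finset.nonempty_iff_ne_empty.2 hT
      obtain ⟨c, hc, e3⟩ := hkil (by omega) le_rfl ha k (hu1 k) T hkT
      rw [e3, map_smul, smul_eq_mul]
      have e4 : (P.q (m + 1 - 1) : ZMod q) * xc (m + 1) (dl P (m + 1) (κ g)) c = 0 := xc_pr hmc hq (κ g) hc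
      rw [e4, smul_zero]
    · intro hc
      exact absurd (Finset.mem_univ _) hc

end main

end H88.OW
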