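import Pool.Agent.H88.OW.Rpr
import Pool.Agent.H88.OW.Qdf

/-!
# [H88 OW FRM] MP_b39724_nt, stage 3, `p = 2` (S1 of think 1824): forms on the free Lie algebra and forms on the layers of `Sp P α`

`dl X`: a functional of the layer `m` as a functional of the Lie elements of degree `m`. `du_cext`: functionals of the layer `m + 1` which agree on commutators are equal.
* `frm_ex`: a form `de` on the free Lie algebra with values of the precision of the layer `m + 1` gives forms `B i j` on the layers, `i + j = m + 1`.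
* `qb_of`: then `QB`. `qb_de`: every `B` with `QB` comes from a unique `de`.
-/

set_option autoImplicit false

open scoped Classical commutatorElement

noncomputable section

namespace H88.OW

open H62.BL H88.S3 H82.S3 Pool.Agent.H61.Tu

open H73.S3 (gm Gr gk Du gk_surj gk_zero gk_mul gk_inv gk_one gk_of smul_gk gm_comm' gm_comm gm_smul gm_anti gm_succ gm_normal
  gk_conj du_ext ap_smul)

section gen

variable {S : Type} [Group S] {q m : ℕ}

/-- functionals of the layer `m + 1` which agree on commutators are equal -/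
theorem du_cext (hm : 1 ≤ m) {χ χ' : Du S q (m + 1)} (h : ∀ (u : S), ∀ v ∈ gm S m,
    χ.ap (gk (m + 1) ⁅u, v⁆) = χ'.ap (gk (m + 1) ⁅u, v⁆)) : χ = χ' := by
  refine du_ext fun a => ?_
  obtain ⟨u, hu, rfl⟩ := gk_surj (m + 1) a
  let A : Subgroup S :=
    { carrier := {u | u ∈ gm S (m + 1) ∧ χ.ap (gk (m + 1) u) = χ'.ap (gk (m + 1) u)}
      one_mem' := ⟨one_mem _, by rw [gk_one, map_zero, map_zero]⟩
      mul_mem' := fun {x x'} hx hx' => ⟨mul_mem hx.1 hx'.1, by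
        rw [gk_mul hx.1 hx'.1, map_add, map_add, hx.2, hx'.2]⟩
      inv_mem' := fun {x} hx => ⟨inv_mem hx.1, by
        rw [gk_inv hx.1, map_neg, map_neg, hx.2]⟩ }
  have hA : gm S (m + 1) ≤ A := by
    rw [gm_succ m hm, Subgroup.commutator_le]
    intro w hw g _
    refine ⟨gm_comm m hw, ?_⟩
    have e1 : ⁅w, g⁆ = ⁅g, w⁆⁻¹ := (commutatorElement_inv g w).symm
    rw [e1, gk_inv (gm_comm' m hw), map_neg, map_neg, h g w hw]
  exact (hA hu).2

end gen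

section dl

variable (P : Par) {α : Type} {q : ℕ}

/-- a functional of the layer `m` on the Lie elements of degree `m` -/
def dl (m : ℕ) (X : Du (Sp P α) q m) : LL (ZMod q) α m →ₗ[ZMod q] ZMod q :=
  match m, X with
  | 0, _ => 0
  | n + 1, X => if h : n + 1 ≤ P.c ∧ P.q n ∣ q then AddMonoidHom.toZModLinearMap q (X.ap.comp (lq P h.1 h.2)) else 0

variable {P}

theorem dl_succ {n : ℕ} (hn : n + 1 ≤ P.c) (hq : P.q n ∣ q) (X : Du (Sp P α) q (n + 1)) (y : LL (ZMod q) α (n + 1)) :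
    dl P (n + 1) X y = X.ap (lq P hn hq y) := by
  show (if h : n + 1 ≤ P.c ∧ P.q n ∣ q then AddMonoidHom.toZModLinearMap q (X.ap.comp (lq P h.1 h.2)) else
    (0 : LL (ZMod q) α (n + 1) →ₗ[ZMod q] ZMod q)) y = _
  rw [dif_pos ⟨hn, hq⟩]
  rfl

theorem xc_hl {R : Type} [CommRing R] {B : Type} [AddCommGroup B] [Module R B] {m : ℕ} (chi : LL R α m →ₗ[R] B)
    {b : FreeLieAlgebra R α} (hb : b ∈ HL R α m) : xc m chi b = chi ⟨ev b, hl_ev hb⟩ :=
  congrArg chi (Subtype.ext (pr_ll (hl_ev hb)))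

theorem xc_ne {R : Type} [CommRing R] {B : Type} [AddCommGroup B] [Module R B] {m d : ℕ} (hd : d ≠ m) (chi : LL R α m →ₗ[R] B)
    {b : FreeLieAlgebra R α} (hb : b ∈ HL R α d) : xc m chi b = 0 := by
  induction hb using Submodule.span_induction with
  | mem x hx =>
    obtain ⟨w, hw, rfl⟩ := hx
    exact xc_zero m chi (l := w) (by rw [hw]; exact hd) (ps_mem _ (List.Perm.refl w))
  | zero => rw [map_zero]
  | add x y _ _ hx hy => rw [map_add, hx, hy, add_zero]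
  | smul r x _ hx => rw [map_smul, hx, smul_zero]

theorem dl_rq {m : ℕ} (hm : 1 ≤ m) (hc : m ≤ P.c) (hq : P.q (m - 1) ∣ q) (X : Du (Sp P α) q m) {v : Sp P α}
    {b : FreeLieAlgebra (ZMod q) α} (hv : Rq P q m v b) : xc m (dl P m X) b = X.ap (gk m v) := by
  obtain ⟨n, rfl⟩ : ∃ n, m = n + 1 := ⟨m - 1, by omega⟩
  have hq' : P.q n ∣ q := hq
  rw [xc_hl _ hv.hl, dl_succ hc hq']
  congr 1
  exact lq_eq P hc hq' _ hv.mem (hv.eq hq)

end dl

section frm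

variable {P : Par} {α : Type} {q m : ℕ}

/-- the precision kills the form -/
theorem kil {i : ℕ} (hi : i ≤ m + 1) (hmc : m + 1 ≤ P.c)
    {de : FreeLieAlgebra (ZMod q) α →ₗ[ZMod q] FreeLieAlgebra (ZMod q) α →ₗ[ZMod q] ZMod q}
    (hk : ∀ a b, (P.q m : ZMod q) * de a b = 0) (a b : FreeLieAlgebra (ZMod q) α) :
    (P.q (i - 1) : ZMod q) * de a b = 0 := by
  obtain ⟨k, hk'⟩ := P.q_dvd (i := i - 1) (j := m) (by omega) hmc
  rw [hk', Nat.cast_mul, mul_right_comm, hk, zero_mul]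

theorem frm_l {i : ℕ} (hi : 1 ≤ i) (him : i ≤ m + 1) (hmc : m + 1 ≤ P.c) (hq : P.q 0 ∣ q)
    {de : FreeLieAlgebra (ZMod q) α →ₗ[ZMod q] FreeLieAlgebra (ZMod q) α →ₗ[ZMod q] ZMod q}
    (hk : ∀ a b, (P.q m : ZMod q) * de a b = 0) {u v : Sp P α} {a b : FreeLieAlgebra (ZMod q) α} (hu : Rq P q i u a)
    (hv : Rq P q i v b) (h : gk i u = gk i v) (c : FreeLieAlgebra (ZMod q) α) : de a c = de b c := by
  obtain ⟨d, _, rfl⟩ := rq_ker hi (by omega) ((P.q_dvd (Nat.zero_le (i - 1)) (by omega)).trans hq) hu hv h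
  rw [map_add, LinearMap.add_apply, map_smul, LinearMap.smul_apply, smul_eq_mul, kil him hmc hk, add_zero]

theorem frm_r {i : ℕ} (hi : 1 ≤ i) (him : i ≤ m + 1) (hmc : m + 1 ≤ P.c) (hq : P.q 0 ∣ q)
    {de : FreeLieAlgebra (ZMod q) α →ₗ[ZMod q] FreeLieAlgebra (ZMod q) α →ₗ[ZMod q] ZMod q}
    (hk : ∀ a b, (P.q m : ZMod q) * de a b = 0) {u v : Sp P α} {a b : FreeLieAlgebra (ZMod q) α} (hu : Rq P q i u a)
    (hv : Rq P q i v b) (h : gk i u = gk i v) (c : FreeLieAlgebra (ZMod q) α) : de c a = de c b := by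
  obtain ⟨d, _, rfl⟩ := rq_ker hi (by omega) ((P.q_dvd (Nat.zero_le (i - 1)) (by omega)).trans hq) hu hv h
  rw [map_add, map_smul, smul_eq_mul, kil him hmc hk, add_zero]

/-- forms on the layers -/
theorem frm_ex {i j : ℕ} (hi : 1 ≤ i) (hj : 1 ≤ j) (him : i ≤ m + 1) (hjm : j ≤ m + 1) (hmc : m + 1 ≤ P.c) (hq : P.q 0 ∣ q)
    (de : FreeLieAlgebra (ZMod q) α →ₗ[ZMod q] FreeLieAlgebra (ZMod q) α →ₗ[ZMod q] ZMod q)
    (hk : ∀ a b, (P.q m : ZMod q) * de a b = 0) :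
    ∃ B : Gr (Sp P α) i →+ Gr (Sp P α) j →+ ZMod q, ∀ u v a b, Rq P q i u a → Rq P q j v b → B (gk i u) (gk j v) = de a b := by
  have hr : ∀ {i : ℕ}, 1 ≤ i → i ≤ m + 1 → ∀ x : Gr (Sp P α) i, ∃ (u : Sp P α) (a : FreeLieAlgebra (ZMod q) α),
      gk i u = x ∧ Rq P q i u a := by
    intro i hi him x
    obtain ⟨u, hu, rfl⟩ := gk_surj i x
    obtain ⟨a, ha⟩ := rq_ex (P := P) (q := q) hi (by omega) hu
    exact ⟨u, a, rfl, ha⟩
  choose U A hU hA using @hr i hi him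
  choose U' A' hU' hA' using @hr j hj hjm
  let F : Gr (Sp P α) i → Gr (Sp P α) j →+ ZMod q := fun x => AddMonoidHom.mk' (fun y => de (A x) (A' y)) fun y y' => by
    rw [← map_add]
    refine frm_r hj hjm hmc hq hk (hA' _) (rq_mul hj (by omega) (hA' y) (hA' y')) ?_ _
    rw [hU', gk_mul (hA' y).mem (hA' y').mem, hU', hU']
  refine ⟨AddMonoidHom.mk' F fun x x' => ?_, fun u v a b hu hv => ?_⟩
  · refine AddMonoidHom.ext fun y => ?_
    show de (A (x + x')) (A' y) = de (A x) (A' y) + de (A x') (A' y)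
    rw [← LinearMap.add_apply, ← map_add]
    refine frm_l hi him hmc hq hk (hA _) (rq_mul hi (by omega) (hA x) (hA x')) ?_ _
    rw [hU, gk_mul (hA x).mem (hA x').mem, hU, hU]
  · show de (A (gk i u)) (A' (gk j v)) = de a b
    rw [frm_l hi him hmc hq hk (hA (gk i u)) hu (hU _), frm_r hj hjm hmc hq hk (hA' (gk j v)) hv (hU' _)]

/-- a quasi Lie functional on the free Lie algebra gives forms on the layers -/
theorem qb_of {Q : Type} [Group Q] [MulAction Q α] (hm : 1 ≤ m) (hmc : m + 1 ≤ P.c) (hq : P.q 0 ∣ q) (R : Subgroup Q)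
    (X : α → Du (Sp P α) q m) (κ : Q → Du (Sp P α) q (m + 1))
    (de : FreeLieAlgebra (ZMod q) α →ₗ[ZMod q] FreeLieAlgebra (ZMod q) α →ₗ[ZMod q] ZMod q)
    (hk : ∀ a b, (P.q m : ZMod q) * de a b = 0)
    (hd : ∀ s, de (FreeLieAlgebra.of (ZMod q) s) = xc m (dl P m (X s)))
    (h1 : ∀ a b c, de ⁅a, b⁆ c = de a ⁅b, c⁆ - de b ⁅a, c⁆) (hs : ∀ a b, de a b + de b a = 0)
    (he : ∀ g ∈ R, ∀ i j, 1 ≤ i → 1 ≤ j → i + j = m + 1 → ∀ a ∈ HL (ZMod q) α i, ∀ b ∈ HL (ZMod q) α j,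
      de (ac (ZMod q) α g⁻¹ a) (ac (ZMod q) α g⁻¹ b) - de a b = - xc (m + 1) (dl P (m + 1) (κ g)) ⁅a, b⁆)
    (hz : ∀ g, g ∉ R → κ g = 0) :
    ∃ B, QB (sy P) (P.q m) R X κ B ∧ ∀ i j, 1 ≤ i → 1 ≤ j → i + j = m + 1 → ∀ u v a b, Rq P q i u a → Rq P q j v b →
      B i j (gk i u) (gk j v) = de a b := by
  have hex : ∀ i j : ℕ, ∃ B : Gr (Sp P α) i →+ Gr (Sp P α) j →+ ZMod q,
      (1 ≤ i ∧ 1 ≤ j ∧ i + j = m + 1 → ∀ u v a b, Rq P q i u a → Rq P q j v b → B (gk i u) (gk j v) = de a b) ∧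
      (¬(1 ≤ i ∧ 1 ≤ j ∧ i + j = m + 1) → B = 0) := by
    intro i j
    by_cases h : 1 ≤ i ∧ 1 ≤ j ∧ i + j = m + 1
    · obtain ⟨B, hB⟩ := frm_ex (P := P) (q := q) h.1 h.2.1 (by omega) (by omega) hmc hq de hk
      exact ⟨B, fun _ => hB, fun h' => absurd h h'⟩
    · exact ⟨0, fun h' => absurd h' h, fun _ => rfl⟩
  choose B hB hB0 using hex
  have hqd : ∀ i, i ≤ m + 1 → P.q (i - 1) ∣ q := fun i hi => (P.q_dvd (Nat.zero_le (i - 1)) (by omega)).trans hq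
  refine ⟨B, ⟨fun a z => ?_, fun i j hi hj hij x y => ?_, fun i j k hi hj hk' hijk u hu v hv w hw => ?_,
    fun g hg i j hi hj hij u hu v hv => ?_, fun i j x y => ?_, hz, fun i j h => hB0 i j h⟩, fun i j hi hj hij => hB i j ⟨hi, hj, hij⟩⟩
  · obtain ⟨v, hv, rfl⟩ := gk_surj m z
    obtain ⟨b, hb⟩ := rq_ex (P := P) (q := q) hm (by omega) hv
    rw [hB 1 m ⟨le_rfl, hm, by omega⟩ _ _ _ _ (rq_of hq a) hb, hd, dl_rq hm (by omega) (hqd m (by omega)) _ hb]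
  · obtain ⟨u, hu, rfl⟩ := gk_surj i x
    obtain ⟨v, hv, rfl⟩ := gk_surj j y
    obtain ⟨a, ha⟩ := rq_ex (P := P) (q := q) hi (by omega) hu
    obtain ⟨b, hb⟩ := rq_ex (P := P) (q := q) hj (by omega) hv
    rw [hB i j ⟨hi, hj, hij⟩ _ _ _ _ ha hb, hB j i ⟨hj, hi, by omega⟩ _ _ _ _ hb ha, hs]
  · obtain ⟨a, ha⟩ := rq_ex (P := P) (q := q) hi (by omega) hu
    obtain ⟨b, hb⟩ := rq_ex (P := P) (q := q) hj (by omega) hv
    obtain ⟨c, hc⟩ := rq_ex (P := P) (q := q) hk' (by omega) hw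
    rw [hB _ _ ⟨by omega, hk', hijk⟩ _ _ _ _ (rq_lie hi hj (by omega) hq ha hb) hc,
      hB _ _ ⟨hi, by omega, by omega⟩ _ _ _ _ ha (rq_lie hj hk' (by omega) hq hb hc),
      hB _ _ ⟨hj, by omega, by omega⟩ _ _ _ _ hb (rq_lie hi hk' (by omega) hq ha hc), h1]
  · obtain ⟨a, ha⟩ := rq_ex (P := P) (q := q) hi (by omega) hu
    obtain ⟨b, hb⟩ := rq_ex (P := P) (q := q) hj (by omega) hv
    have e1 := rq_lie hi hj (by omega) hq ha hb
    rw [hij] at e1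
    have e2 := dl_rq (by omega) hmc (hqd (m + 1) le_rfl) (κ g) e1
    rw [smul_gk _ hu, smul_gk _ hv, ← e2, hB i j ⟨hi, hj, hij⟩ _ _ _ _ ha hb,
      hB i j ⟨hi, hj, hij⟩ _ _ _ _ (rq_smul hi (by omega) g⁻¹ ha) (rq_smul hj (by omega) g⁻¹ hb)]
    have e3 := he g hg i j hi hj hij a ha.hl b hb.hl
    rw [← neg_eq_iff_eq_neg] at e3
    rw [← e3]
    ring
  · by_cases h : 1 ≤ i ∧ 1 ≤ j ∧ i + j = m + 1
    · obtain ⟨u, hu, rfl⟩ := gk_surj i x
      obtain ⟨v, hv, rfl⟩ := gk_surj j y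
      obtain ⟨a, ha⟩ := rq_ex (P := P) (q := q) h.1 (by omega) hu
      obtain ⟨b, hb⟩ := rq_ex (P := P) (q := q) h.2.1 (by omega) hv
      rw [hB i j h _ _ _ _ ha hb, nsmul_eq_mul]
      exact hk a b
    · rw [hB0 i j h]
      exact smul_zero _

end frm

end H88.OW
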