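import Pool.Agent.H88.OW.Frm

/-!
# [H88 OW MAP] MP_b39724_nt: homomorphisms between the groups `Sp P α` and representing Lie elements; the form of a quasi Lie functional

`rq_map`: `f : Sp P β → Sp P γ`, `F : FreeLie β → FreeLie γ` a Lie homomorphism such that `F b` represents `f (sy b)`: then `F a` represents `f u` if `a` represents `u`.
`qb_de`: every `B` with `QB` comes from a form `de` on the free Lie algebra.
-/

set_option autoImplicit false

open scoped Classical commutatorElement

noncomputable section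

namespace H88.OW

open H62.BL H88.S3 H82.S3 Pool.Agent.H61.Tu

open H73.S3 (gm Gr gk Du gk_surj gk_zero gk_mul gk_inv gk_one gk_of smul_gk gm_comm' gm_comm gm_smul gm_anti gm_succ gm_normal
  gk_conj du_ext ap_smul)

section mp

variable {P : Par} {β γ : Type} {q : ℕ}

theorem hl_zero {R α : Type} [CommRing R] {a : FreeLieAlgebra R α} (ha : a ∈ HL R α 0) : a = 0 := by
  induction ha using Submodule.span_induction with
  | mem x hx =>
    obtain ⟨w, hw, rfl⟩ := hx
    rw [List.length_eq_zero_iff] at hw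
    subst hw
    rfl
  | zero => rfl
  | add x y _ _ hx hy => rw [hx, hy, add_zero]
  | smul r x _ hx => rw [hx, smul_zero]

theorem hl_map {R : Type} [CommRing R] (F : FreeLieAlgebra R β →ₗ⁅R⁆ FreeLieAlgebra R γ)
    (h : ∀ b, F (FreeLieAlgebra.of R b) ∈ HL R γ 1) {i : ℕ} {a : FreeLieAlgebra R β} (ha : a ∈ HL R β i) : F a ∈ HL R γ i := by
  have key : ∀ w : List β, F (rb (FreeLieAlgebra.of R) w) ∈ HL R γ w.length := by
    intro w
    induction w with
    | nil =>
      have e : rb (FreeLieAlgebra.of R : β → FreeLieAlgebra R β) [] = 0 := rfl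
      rw [e, map_zero]
      exact zero_mem _
    | cons b w ih =>
      by_cases hw : w = []
      · subst hw
        exact h b
      · rw [rb_cons _ b hw, LieHom.map_lie, List.length_cons, add_comm]
        exact hl_lie (h b) ih
  induction ha using Submodule.span_induction with
  | mem x hx =>
    obtain ⟨w, hw, rfl⟩ := hx
    rw [← hw]
    exact key w
  | zero => rw [map_zero]; exact zero_mem _
  | add x y _ _ hx hy => rw [map_add]; exact add_mem hx hy
  | smul r x _ hx =>
    have e : F (r • x) = r • F x := (F : FreeLieAlgebra R β →ₗ[R] FreeLieAlgebra R γ).map_smul r x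
    rw [e]
    exact Submodule.smul_mem _ _ hx

theorem rq_q {i : ℕ} (hi : 1 ≤ i) (hc : i ≤ P.c) {c : FreeLieAlgebra (ZMod q) β}
    (hcl : c ∈ HL (ZMod q) β i) : Rq P q i (1 : Sp P β) ((P.q (i - 1) : ZMod q) • c) := by
  obtain ⟨n, rfl⟩ : ∃ n, i = n + 1 := ⟨i - 1, by omega⟩
  refine ⟨one_mem _, Submodule.smul_mem _ _ hcl, fun h => ?_⟩
  have h' : P.q n ∣ q := h
  show dg P n (1 : Sp P β) = rc h' (ev ((P.q n : ZMod q) • c) : List β → ZMod q)
  rw [dg_one P hc, map_smul]
  ext w
  show (0 : ZMod (P.q n)) = ZMod.castHom h' (ZMod (P.q n)) ((P.q n : ZMod q) * (ev c : List β → ZMod q) w)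
  rw [map_mul, map_natCast, ZMod.natCast_self, zero_mul]

theorem rq_map (f : Sp P β →* Sp P γ) (F : FreeLieAlgebra (ZMod q) β →ₗ⁅ZMod q⁆ FreeLieAlgebra (ZMod q) γ) (hq : P.q 0 ∣ q)
    (h : ∀ b, Rq P q 1 (f (sy P b)) (F (FreeLieAlgebra.of (ZMod q) b))) {i : ℕ} (hi : 1 ≤ i) (hc : i ≤ P.c) {u : Sp P β}
    {a : FreeLieAlgebra (ZMod q) β} (hu : Rq P q i u a) : Rq P q i (f u) (F a) := by
  have key : ∀ i, 1 ≤ i → i ≤ P.c → ∀ u ∈ gm (Sp P β) i, ∃ a, Rq P q i u a ∧ Rq P q i (f u) (F a) := by
    intro i hi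
    induction i, hi using Nat.le_induction with
    | base =>
      intro hc u hu0
      clear hu0
      have hu : u ∈ Subgroup.closure (Set.range (sy P : β → Sp P β)) := by
        rw [sy_gen]
        exact Subgroup.mem_top _
      induction hu using Subgroup.closure_induction with
      | mem x hx =>
        obtain ⟨b, rfl⟩ := hx
        exact ⟨_, rq_of hq b, h b⟩
      | one =>
        refine ⟨0, rq_one le_rfl hc, ?_⟩
        rw [map_one, map_zero]
        exact rq_one le_rfl hc
      | mul x y _ _ hx hy =>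
        obtain ⟨a, ha, ha'⟩ := hx
        obtain ⟨b, hb, hb'⟩ := hy
        refine ⟨a + b, rq_mul le_rfl hc ha hb, ?_⟩
        rw [map_mul, map_add]
        exact rq_mul le_rfl hc ha' hb'
      | inv x _ hx =>
        obtain ⟨a, ha, ha'⟩ := hx
        refine ⟨-a, rq_inv le_rfl hc ha, ?_⟩
        rw [map_inv, map_neg]
        exact rq_inv le_rfl hc ha'
    | succ i hi ih =>
      intro hc u hu
      let A : Subgroup (Sp P β) :=
        { carrier := {u | ∃ a, Rq P q (i + 1) u a ∧ Rq P q (i + 1) (f u) (F a)}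
          one_mem' := ⟨0, rq_one (by omega) hc, by rw [map_one, map_zero]; exact rq_one (by omega) hc⟩
          mul_mem' := by
            rintro x y ⟨a, ha, ha'⟩ ⟨b, hb, hb'⟩
            refine ⟨a + b, rq_mul (by omega) hc ha hb, ?_⟩
            rw [map_mul, map_add]
            exact rq_mul (by omega) hc ha' hb'
          inv_mem' := by
            rintro x ⟨a, ha, ha'⟩
            refine ⟨-a, rq_inv (by omega) hc ha, ?_⟩
            rw [map_inv, map_neg]
            exact rq_inv (by omega) hc ha' }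
      have hA : gm (Sp P β) (i + 1) ≤ A := by
        rw [gm_succ i hi, Subgroup.commutator_le]
        intro w hw g _
        obtain ⟨a, ha, ha'⟩ := ih (by omega) w hw
        obtain ⟨b, hb⟩ := rq_ex (P := P) (q := q) (i := 1) le_rfl (by omega) (u := g) (Subgroup.mem_top _)
        have hb' : Rq P q 1 (f g) (F b) := by
          have h1 : ∀ u : Sp P β, ∃ a, Rq P q 1 u a ∧ Rq P q 1 (f u) (F a) := by
            intro u
            have hu : u ∈ Subgroup.closure (Set.range (sy P : β → Sp P β)) := by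
              rw [sy_gen]
              exact Subgroup.mem_top _
            induction hu using Subgroup.closure_induction with
            | mem x hx =>
              obtain ⟨b, rfl⟩ := hx
              exact ⟨_, rq_of hq b, h b⟩
            | one =>
              refine ⟨0, rq_one le_rfl (by omega), ?_⟩
              rw [map_one, map_zero]
              exact rq_one le_rfl (by omega)
            | mul x y _ _ hx hy =>
              obtain ⟨a, ha, ha'⟩ := hx
              obtain ⟨b, hb, hb'⟩ := hy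
              refine ⟨a + b, rq_mul le_rfl (by omega) ha hb, ?_⟩
              rw [map_mul, map_add]
              exact rq_mul le_rfl (by omega) ha' hb'
            | inv x _ hx =>
              obtain ⟨a, ha, ha'⟩ := hx
              refine ⟨-a, rq_inv le_rfl (by omega) ha, ?_⟩
              rw [map_inv, map_neg]
              exact rq_inv le_rfl (by omega) ha'
          obtain ⟨b', hb1, hb2⟩ := h1 g
          obtain ⟨d, hd, rfl⟩ := rq_ker le_rfl (by omega) (by simpa using hq) hb hb1 rfl
          have e : F (b' + (P.q (1 - 1) : ZMod q) • d) = F b' + (P.q (1 - 1) : ZMod q) • F d := by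
            rw [map_add]
            congr 1
            exact (F : FreeLieAlgebra (ZMod q) β →ₗ[ZMod q] FreeLieAlgebra (ZMod q) γ).map_smul _ _
          rw [e, ← mul_one (f g)]
          exact rq_mul le_rfl (by omega) hb2 (rq_q le_rfl (by omega) (hl_map F (fun b => (h b).hl) hd))
        refine ⟨⁅a, b⁆, rq_lie hi le_rfl (by omega) hq ha hb, ?_⟩
        rw [map_commutatorElement, LieHom.map_lie]
        exact rq_lie hi le_rfl (by omega) hq ha' hb'
      exact hA hu
  obtain ⟨a', ha1, ha2⟩ := key i hi hc u hu.mem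
  have hqi : P.q (i - 1) ∣ q := (P.q_dvd (Nat.zero_le (i - 1)) (by omega)).trans hq
  obtain ⟨d, hd, rfl⟩ := rq_ker hi hc hqi hu ha1 rfl
  have e : F (a' + (P.q (i - 1) : ZMod q) • d) = F a' + (P.q (i - 1) : ZMod q) • F d := by
    rw [map_add]
    congr 1
    exact (F : FreeLieAlgebra (ZMod q) β →ₗ[ZMod q] FreeLieAlgebra (ZMod q) γ).map_smul _ _
  rw [e, ← mul_one (f u)]
  exact rq_mul hi hc ha2 (rq_q hi hc (hl_map F (fun b => (h b).hl) hd))

end mp

section de

variable {P : Par} {α : Type} {q m : ℕ}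

/-- the degrees -/
theorem de_hl {R : Type} [CommRing R] {B : Type} [AddCommGroup B] [Module R B]
    {de : FreeLieAlgebra R α →ₗ[R] FreeLieAlgebra R α →ₗ[R] B} {chi : α → LL R α m →ₗ[R] B}
    (hd : ∀ s, de (FreeLieAlgebra.of R s) = xc m (chi s)) (h1 : ∀ a b c, de ⁅a, b⁆ c = de a ⁅b, c⁆ - de b ⁅a, c⁆)
    {i j : ℕ} (hij : i + j ≠ m + 1) {a b : FreeLieAlgebra R α} (ha : a ∈ HL R α i) (hb : b ∈ HL R α j) : de a b = 0 := by
  induction ha using Submodule.span_induction with
  | mem x hx =>
    obtain ⟨u, hu, rfl⟩ := hx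
    induction hb using Submodule.span_induction with
    | mem y hy =>
      obtain ⟨v, hv, rfl⟩ := hy
      exact de_zero hd h1 u v (by rw [hu, hv]; exact hij) _ (ps_mem _ (List.Perm.refl v))
    | zero => rw [map_zero]
    | add x y _ _ hx hy => rw [map_add, hx, hy, add_zero]
    | smul r x _ hx => rw [map_smul, hx, smul_zero]
  | zero => rw [map_zero, LinearMap.zero_apply]
  | add x y _ _ hx hy => rw [map_add, LinearMap.add_apply, hx, hy, add_zero]
  | smul r x _ hx => rw [map_smul, LinearMap.smul_apply, hx, smul_zero]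

/-- every quasi Lie functional comes from a form on the free Lie algebra -/
theorem qb_de {Q : Type} [Group Q] [MulAction Q α] (hm : 1 ≤ m) (hmc : m + 1 ≤ P.c) (hq : P.q 0 ∣ q) {R : Subgroup Q}
    {X : α → Du (Sp P α) q m} {κ : Q → Du (Sp P α) q (m + 1)} {B : ∀ i j : ℕ, Gr (Sp P α) i →+ Gr (Sp P α) j →+ ZMod q}
    (h : QB (sy P) (P.q m) R X κ B) :
    ∃ de : FreeLieAlgebra (ZMod q) α →ₗ[ZMod q] FreeLieAlgebra (ZMod q) α →ₗ[ZMod q] ZMod q,
      (∀ a b, (P.q m : ZMod q) * de a b = 0) ∧
      (∀ s, de (FreeLieAlgebra.of (ZMod q) s) = xc m (dl P m (X s))) ∧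
      (∀ a b c, de ⁅a, b⁆ c = de a ⁅b, c⁆ - de b ⁅a, c⁆) ∧ (∀ a b, de a b + de b a = 0) ∧
      (∀ i j, i + j ≠ m + 1 → ∀ a ∈ HL (ZMod q) α i, ∀ b ∈ HL (ZMod q) α j, de a b = 0) ∧
      (∀ i j, 1 ≤ i → 1 ≤ j → i + j = m + 1 → ∀ u v a b, Rq P q i u a → Rq P q j v b →
        B i j (gk i u) (gk j v) = de a b) ∧
      ∀ g ∈ R, ∀ i j, 1 ≤ i → 1 ≤ j → i + j = m + 1 → ∀ a ∈ HL (ZMod q) α i, ∀ b ∈ HL (ZMod q) α j,
        de (ac (ZMod q) α g⁻¹ a) (ac (ZMod q) α g⁻¹ b) - de a b = - xc (m + 1) (dl P (m + 1) (κ g)) ⁅a, b⁆ := by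
  have hqd : ∀ i, i ≤ m + 1 → P.q (i - 1) ∣ q := fun i hi => (P.q_dvd (Nat.zero_le (i - 1)) (by omega)).trans hq
  obtain ⟨de, hd, h1⟩ := der_exists fun s => xc m (dl P m (X s))
  have hX : ∀ s z, (P.q m : ZMod q) * (X s).ap z = 0 := by
    intro s z
    rw [← h.gen s z, ← nsmul_eq_mul]
    exact h.pr _ _ _ _
  have hk : ∀ a b, (P.q m : ZMod q) * de a b = 0 := by
    have e : ((P.q m : ZMod q) • de) = 0 := by
      refine de_uniq (fun a b c => ?_) (fun a b c => ?_) fun a => LinearMap.ext fun b => ?_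
      · show (P.q m : ZMod q) • de ⁅a, b⁆ c = (P.q m : ZMod q) • de a ⁅b, c⁆ - (P.q m : ZMod q) • de b ⁅a, c⁆
        rw [h1, smul_sub]
      · show (0 : ZMod q) = 0 - 0
        rw [sub_zero]
      · show (P.q m : ZMod q) • de (FreeLieAlgebra.of (ZMod q) a) b = 0
        rw [hd]
        show (P.q m : ZMod q) * dl P m (X a) ⟨pr m (ev b), pr_ev _ _⟩ = 0
        obtain ⟨n, rfl⟩ : ∃ n, m = n + 1 := ⟨m - 1, by omega⟩
        have hqn : P.q n ∣ q := hqd (n + 1) (by omega)
        rw [dl_succ (by omega) hqn]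
        exact hX a _
    intro a b
    exact congrArg (fun F : FreeLieAlgebra (ZMod q) α →ₗ[ZMod q] FreeLieAlgebra (ZMod q) α →ₗ[ZMod q] ZMod q => F a b) e
  -- degree one in the first argument
  have one : ∀ u, ∀ a, Rq P q 1 u a → ∀ v b, Rq P q m v b → B 1 m (gk 1 u) (gk m v) = de a b := by
    intro u a ha v b hb
    have hu : u ∈ Subgroup.closure (Set.range (sy P : α → Sp P α)) := by
      rw [sy_gen]
      exact Subgroup.mem_top _
    have key : ∃ a, Rq P q 1 u a ∧ B 1 m (gk 1 u) (gk m v) = de a b := by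
      clear ha
      induction hu using Subgroup.closure_induction with
      | mem x hx =>
        obtain ⟨s, rfl⟩ := hx
        refine ⟨_, rq_of hq s, ?_⟩
        rw [h.gen, hd, dl_rq hm (by omega) (hqd m (by omega)) _ hb]
      | one =>
        refine ⟨0, rq_one le_rfl (by omega), ?_⟩
        rw [gk_one, map_zero, map_zero]
        rfl
      | mul x y _ _ hx hy =>
        obtain ⟨a, ha, ha'⟩ := hx
        obtain ⟨a2, ha2, ha2'⟩ := hy
        refine ⟨a + a2, rq_mul le_rfl (by omega) ha ha2, ?_⟩
        rw [gk_mul (Subgroup.mem_top _) (Subgroup.mem_top _), map_add, AddMonoidHom.add_apply, ha', ha2', map_add,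
          LinearMap.add_apply]
      | inv x _ hx =>
        obtain ⟨a, ha, ha'⟩ := hx
        refine ⟨-a, rq_inv le_rfl (by omega) ha, ?_⟩
        rw [gk_inv (Subgroup.mem_top _), map_neg, AddMonoidHom.neg_apply, ha', map_neg, LinearMap.neg_apply]
    obtain ⟨a', ha', e⟩ := key
    rw [e]
    exact frm_l le_rfl (by omega) hmc hq hk ha' ha rfl b
  have all : ∀ i, 1 ≤ i → ∀ j, 1 ≤ j → i + j = m + 1 → ∀ u, ∀ a, Rq P q i u a → ∀ v b, Rq P q j v b →
      B i j (gk i u) (gk j v) = de a b := by
    intro i hi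
    induction i, hi using Nat.le_induction with
    | base =>
      intro j hj hij u a ha v b hb
      have e : j = m := by omega
      subst e
      exact one u a ha v b hb
    | succ i hi ih =>
      intro j hj hij u a ha v b hb
      let A : Subgroup (Sp P α) :=
        { carrier := {u | u ∈ gm (Sp P α) (i + 1) ∧ ∃ a, Rq P q (i + 1) u a ∧ B (i + 1) j (gk (i + 1) u) (gk j v) = de a b}
          one_mem' := ⟨one_mem _, 0, rq_one (by omega) (by omega), by
            rw [gk_one, map_zero, map_zero]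
            rfl⟩
          mul_mem' := by
            rintro x y ⟨hx, a, ha, ha'⟩ ⟨hy, a2, ha2, ha2'⟩
            refine ⟨mul_mem hx hy, a + a2, rq_mul (by omega) (by omega) ha ha2, ?_⟩
            rw [gk_mul hx hy, map_add, AddMonoidHom.add_apply, ha', ha2', map_add, LinearMap.add_apply]
          inv_mem' := by
            rintro x ⟨hx, a, ha, ha'⟩
            refine ⟨inv_mem hx, -a, rq_inv (by omega) (by omega) ha, ?_⟩
            rw [gk_inv hx, map_neg, AddMonoidHom.neg_apply, ha', map_neg, LinearMap.neg_apply] }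
      have hA : gm (Sp P α) (i + 1) ≤ A := by
        rw [gm_succ i hi, Subgroup.commutator_le]
        intro w hw g _
        refine ⟨gm_comm i hw, ?_⟩
        obtain ⟨a, ha⟩ := rq_ex (P := P) (q := q) hi (by omega) hw
        obtain ⟨c, hc⟩ := rq_ex (P := P) (q := q) (i := 1) le_rfl (by omega) (u := g) (Subgroup.mem_top _)
        refine ⟨⁅a, c⁆, rq_lie hi le_rfl (by omega) hq ha hc, ?_⟩
        have e1 := rq_lie le_rfl hj (by omega) hq hc hb
        have e2 := rq_lie hi hj (by omega) hq ha hb
        have e3 : i + j = m := by omega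
        rw [h.jac i 1 j hi le_rfl hj (by omega) w hw g (Subgroup.mem_top _) v hb.mem,
          ih (1 + j) (by omega) (by omega) w a ha _ _ e1, h1]
        congr 1
        have e4 : Rq P q m ⁅w, v⁆ ⁅a, b⁆ := by
          rw [← e3]
          exact e2
        have e5 := one g c hc _ _ e4
        rw [← e5]
        subst e3
        rfl
      obtain ⟨-, a', ha', e⟩ := hA ha.mem
      rw [e]
      exact frm_l (by omega) (by omega) hmc hq hk ha' ha rfl b
  have hde0 : ∀ i j, i + j ≠ m + 1 → ∀ a ∈ HL (ZMod q) α i, ∀ b ∈ HL (ZMod q) α j, de a b = 0 :=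
    fun i j hij a ha b hb => de_hl hd h1 hij ha hb
  have hsk : ∀ i j, ∀ a ∈ HL (ZMod q) α i, ∀ b ∈ HL (ZMod q) α j, de a b + de b a = 0 := by
    intro i j a ha b hb
    by_cases hij : i + j = m + 1
    · rcases Nat.eq_zero_or_pos i with h0 | h0
      · subst h0
        rw [hl_zero ha, map_zero, map_zero, LinearMap.zero_apply, add_zero]
      rcases Nat.eq_zero_or_pos j with h0' | h0'
      · subst h0'
        rw [hl_zero hb, map_zero, map_zero, LinearMap.zero_apply, add_zero]
      obtain ⟨u, hu⟩ := rq_ex' h0 (by omega) (hqd i (by omega)) ha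
      obtain ⟨v, hv⟩ := rq_ex' h0' (by omega) (hqd j (by omega)) hb
      rw [← all i h0 j h0' hij u a hu v b hv, ← all j h0' i h0 (by omega) v b hv u a hu]
      exact h.sk i j h0 h0' hij _ _
    · rw [hde0 i j hij a ha b hb, hde0 j i (by omega) b hb a ha, add_zero]
  refine ⟨de, hk, hd, h1, fun a b => ?_, hde0, fun i j hi hj hij u v a b ha hb => all i hi j hj hij u a ha v b hb,
    fun g hg i j hi hj hij a ha b hb => ?_⟩
  · have hA := fl_span a
    have hB := fl_span b
    induction hA using Submodule.span_induction with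
    | mem a ha' =>
      obtain ⟨u, rfl⟩ := ha'
      induction hB using Submodule.span_induction with
      | mem b hb' =>
        obtain ⟨v, rfl⟩ := hb'
        exact hsk _ _ _ (hl_mem rfl) _ (hl_mem rfl)
      | zero => rw [map_zero, map_zero, LinearMap.zero_apply, add_zero]
      | add x y _ _ hx hy =>
        rw [map_add, map_add, LinearMap.add_apply, add_add_add_comm, hx, hy, add_zero]
      | smul r x _ hx => rw [map_smul, map_smul, LinearMap.smul_apply, ← smul_add, hx, smul_zero]
    | zero => rw [map_zero, map_zero, LinearMap.zero_apply, add_zero]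
    | add x y _ _ hx hy =>
      rw [map_add, map_add, LinearMap.add_apply, add_add_add_comm, hx, hy, add_zero]
    | smul r x _ hx => rw [map_smul, map_smul, LinearMap.smul_apply, ← smul_add, hx, smul_zero]
  · obtain ⟨u, hu⟩ := rq_ex' hi (by omega) (hqd i (by omega)) ha
    obtain ⟨v, hv⟩ := rq_ex' hj (by omega) (hqd j (by omega)) hb
    have e1 := rq_lie hi hj (by omega) hq hu hv
    rw [hij] at e1
    rw [dl_rq (by omega) hmc (hqd (m + 1) le_rfl) (κ g) e1, h.eqv g hg i j hi hj hij u hu.mem v hv.mem,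
      smul_gk _ hu.mem, smul_gk _ hv.mem, all i hi j hj hij u a hu v b hv,
      all i hi j hj hij _ _ (rq_smul hi (by omega) g⁻¹ hu) _ _ (rq_smul hj (by omega) g⁻¹ hv)]
    ring

end de

end H88.OW
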