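import Pool.Agent.H88.OW.Psi
import Pool.Agent.H12.OW.Eta

/-!
# [H88 OW PSX] MP_b39724_nt, THEOREM OW, S4 (c10): the functional `psi` on the group with own letters

`O : OwL P P' A Be (Fin (d + 1))`, `B` the forms of a quasi Lie functional on `Sp Pa A`, index `m = d + 1`. THEOREM `psx`: there is a function `psi` on `Sp Pa Be`, additive on `Kk univ`, `0` on
`Kk univ ∩ gam_(d+3)` (`PK`), with `psi ⁅u, v⁆ = - B i j (ev u) (ev v)` for `u ∈ Kk J ∩ gam_i`, `v ∈ Kk J' ∩ gam_j`, `J ∪ J' = univ`, `i + j = d + 2`, and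
`psi (g⁻¹ • u) - psi u = κ (f g) (ev u)` for `f g ∈ R`, `u ∈ Kk univ ∩ gam_(d+2)`. (`psi` of H88/OW/Psi, extended by `ext_psi` of H12/OW/Kil.)
-/

set_option autoImplicit false

open scoped Classical commutatorElement

noncomputable section

namespace H88.OW

open H62.BL H88.S3 H82.S3 Pool.Agent.H61.Tu H12.OW

open H73.S3 (gm Gr gk Du SP gk_surj gk_zero gk_mul gk_inv gk_one gk_of smul_gk gm_comm' gm_comm gm_smul gm_anti gm_succ gm_normal
  gk_conj du_ext ap_smul)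

variable {Pa : Par} {P P' A Be : Type} [Group P] [Group P'] [MulAction P A] [MulAction P' Be] {q d : ℕ}

/-- THEOREM (c10): the functional of the group with own letters -/
theorem psx (O : OwL P P' A Be (Fin (d + 1))) [NeZero q] (hd : 1 ≤ d) (hc : d + 2 ≤ Pa.c) (hq : Pa.q 0 ∣ q)
    (hx : ∀ s : Sp Pa Be, s ^ q = 1) {R : Subgroup P} {X : A → Du (Sp Pa A) q (d + 1)}
    {κ : P → Du (Sp Pa A) q (d + 1 + 1)} {B : ∀ i j : ℕ, Gr (Sp Pa A) i →+ Gr (Sp Pa A) j →+ ZMod q}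
    (h : QB (sy Pa) (Pa.q (d + 1)) R X κ B) :
    ∃ psi : Sp Pa Be → ZMod q, H24.OW.PK P' (O.Kk Pa Finset.univ) psi (d + 1) ∧
      (∀ (i j : ℕ) (J J' : Finset (Fin (d + 1))), i + j = d + 2 → 1 ≤ i → 1 ≤ j → J ∪ J' = Finset.univ →
        ∀ u ∈ O.Kk Pa J, u ∈ gm (Sp Pa Be) i → ∀ v ∈ O.Kk Pa J', v ∈ gm (Sp Pa Be) j →
          psi ⁅u, v⁆ = -B i j (gk i (O.ev Pa u)) (gk j (O.ev Pa v))) ∧
      ∀ g : P', O.f g ∈ R → ∀ u ∈ O.Kk Pa Finset.univ, u ∈ gm (Sp Pa Be) (d + 2) →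
        psi (g⁻¹ • u) - psi u = (κ (O.f g)).ap (gk (d + 2) (O.ev Pa u)) := by
  obtain ⟨ψ, h1, -, h3⟩ := psi (P := Pa) (M := d + 1) (by omega : 1 ≤ d + 1) (by omega) hq (by omega) h O.fs O.ow (O.ev Pa)
    (fun b => O.ev_sy Pa b) (fun k => O.ki Pa k) (fun k b => by
      rw [O.ki_sy]
      by_cases hb : O.ow b = some k
      · rw [if_neg (not_not.2 hb), if_pos hb]
      · rw [if_pos hb, if_neg hb])
  obtain ⟨Ψ, e1, e2, e3⟩ := ext_psi (q := q) (O.Kk Pa Finset.univ) (O.Kk Pa Finset.univ ⊓ gm (Sp Pa Be) (d + 2))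
    (gm (Sp Pa Be) (d + 3)) inf_le_left (fun u hu v hv => by
      have h4 := O.kk_le Pa Finset.univ hu
      have h5 := O.kk_le Pa Finset.univ hv
      rw [Finset.card_univ, Fintype.card_fin] at h4 h5
      exact gm_le (by omega) (gm_comm2 (by omega) (by omega) h4 h5))
    (fun u _ => by
      rw [hx]
      exact one_mem _)
    (fun u => ψ.ap (gk (d + 2) u)) (fun u hu v hv => by
      show ψ.ap (gk (d + 2) (u * v)) = _
      rw [gk_mul hu.2 hv.2, map_add])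
    (fun u hu hL => by
      show ψ.ap (gk (d + 2) u) = 0
      rw [(gk_zero hu.2).2 hL, map_zero])
  refine ⟨Ψ, ⟨fun g u hu => kk_cjl g hu, e1, ?_, fun u hu hL => e2 u hu hL⟩, ?_, ?_⟩
  · have h4 := O.kk_le Pa Finset.univ
    rwa [Finset.card_univ, Fintype.card_fin] at h4
  · intro i j J J' hij hi hj hJ u hu hui v hv hvj
    have h4 : ⁅u, v⁆ ∈ O.Kk Pa Finset.univ := by
      intro k _
      have hk : k ∈ J ∪ J' := by
        rw [hJ]
        exact Finset.mem_univ k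
      rcases Finset.mem_union.1 hk with h6 | h6
      · rw [map_commutatorElement, hu k h6, commutatorElement_one_left]
      · rw [map_commutatorElement, hv k h6, commutatorElement_one_right]
    have h5 : ⁅u, v⁆ ∈ gm (Sp Pa Be) (d + 2) := by
      rw [← hij]
      exact gm_comm2 hi hj hui hvj
    rw [e3 _ ⟨h4, h5⟩]
    exact h1 i j hi hj hij J J' hJ u hui v hvj hu hv
  · intro g hg u hu hud
    have h4 : g⁻¹ • u ∈ O.Kk Pa Finset.univ := O.kk_smul Pa g⁻¹ hu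
    rw [e3 _ ⟨h4, gm_smul g⁻¹ hud⟩, e3 _ ⟨hu, hud⟩]
    refine h3 (O.f g) hg (fun b => g⁻¹ • b) (fun b => ?_) (fun b => O.ow_smul g⁻¹ b)
      (MulDistribMulAction.toMonoidHom (Sp Pa Be) g⁻¹) (fun b => ?_) u hud fun k => hu k (Finset.mem_univ k)
    · rw [O.fs_smul, map_inv]
    · show g⁻¹ • sy Pa b = _
      rw [sp_smul, smap_sy]

end H88.OW
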