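import Pool.Agent.H88.OW.Psx
import Pool.Agent.H62.OW.F2e
import Pool.Agent.H48.OW.Fdo

/-!
# [H88 OW PSY] MP_b39724_nt, THEOREM OW, S4 (c10): the functional `psi` for `So hp c (d + 1) Pa` (instance `owl` of `psx`), in the forms used by H24/OW (`PK`), H62/OW (`Psi`), H57/OW/Nulk (`hB`)
-/

set_option autoImplicit false

open scoped Classical commutatorElement

noncomputable section

namespace H88.OW

open H63.MA H38.BB H38.BG H57.PC H57.BRA H77.WD H77.WE H77.PC3 H35.CF H35.UB H77.S3 H71.S3 H1.S3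
  H73.S3 H82.S3 H12.OW H48.OW


/-- THEOREM: `psx` with the properties `Psi` -/
theorem psy {Pa : Par} {P P' A Be : Type} [Group P] [Group P'] [MulAction P A] [MulAction P' Be] {q d : ℕ}
    (O : OwL P P' A Be (Fin (d + 1))) [NeZero q] (hd : 1 ≤ d) (hc : d + 2 ≤ Pa.c) (hq : Pa.q 0 ∣ q)
    (hx : ∀ s : Sp Pa Be, s ^ q = 1) {R : Subgroup P} {X : A → Du (Sp Pa A) q (d + 1)}
    {κ : P → Du (Sp Pa A) q (d + 1 + 1)} {B : ∀ i j : ℕ, Gr (Sp Pa A) i →+ Gr (Sp Pa A) j →+ ZMod q}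
    (h : QB (sy Pa) (Pa.q (d + 1)) R X κ B) :
    ∃ psi : Sp Pa Be → ZMod q, H24.OW.PK P' (O.Kk Pa Finset.univ) psi (d + 1) ∧
      H62.OW.Psi (O.Kk Pa Finset.univ) (O.ev Pa) psi B P' (q := q) (d := d) ∧
      (∀ (i j : ℕ) (J J' : Finset (Fin (d + 1))), i + j = d + 2 → 1 ≤ i → 1 ≤ j → J ∪ J' = Finset.univ →
        ∀ u ∈ O.Kk Pa J, u ∈ gm (Sp Pa Be) i → ∀ v ∈ O.Kk Pa J', v ∈ gm (Sp Pa Be) j →
          psi ⁅u, v⁆ = -B i j (gk i (O.ev Pa u)) (gk j (O.ev Pa v))) ∧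
      ∀ g : P', O.f g ∈ R → ∀ u ∈ O.Kk Pa Finset.univ, u ∈ gm (Sp Pa Be) (d + 2) →
        psi (g⁻¹ • u) - psi u = (κ (O.f g)).ap (gk (d + 2) (O.ev Pa u)) := by
  obtain ⟨psi, h1, h2, h3⟩ := psx O hd hc hq hx h
  refine ⟨psi, h1, ⟨h1.st, h1.le, h1.add, h1.bot, fun u hu v => ?_, fun v u hu => ?_⟩, h2, h3⟩
  · exact h2 (d + 1) 1 Finset.univ ∅ (by omega) (by omega) le_rfl (Finset.union_empty _) u hu (h1.le hu) v
      (fun k hk => absurd hk (Finset.notMem_empty k)) (Subgroup.mem_top v)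
  · exact h2 1 (d + 1) ∅ Finset.univ (by omega) le_rfl (by omega) (Finset.empty_union _) v
      (fun k hk => absurd hk (Finset.notMem_empty k)) (Subgroup.mem_top v) u hu (h1.le hu)

/-- THEOREM (c10): the functional `psi` on `So` -/
theorem psq {p N : ℕ} {P : Type} [Group P] (hp : p.Prime) (c : CL p N P) (Pa : Par) {q d : ℕ} [NeZero q] (hd : 1 ≤ d)
    (hc : d + 2 ≤ Pa.c) (hq : Pa.q 0 ∣ q) (hx : ∀ s : So hp c (d + 1) Pa, s ^ q = 1) {G : SG c (Sp Pa (Px c))}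
    (hG : ∀ x, G.y x = sy Pa x) {R : Subgroup P} {X : Px c → Du (Sp Pa (Px c)) q (d + 1)}
    {κ : P → Du (Sp Pa (Px c)) q (d + 1 + 1)} {B : ∀ i j : ℕ, Gr (Sp Pa (Px c)) i →+ Gr (Sp Pa (Px c)) j →+ ZMod q}
    (h : QB G.y (Pa.q (d + 1)) R X κ B) :
    ∃ psi : So hp c (d + 1) Pa → ZMod q,
      H24.OW.PK (P × Ci p (d + 1)) ((owl hp c (d + 1)).Kk Pa Finset.univ) psi (d + 1) ∧
      H62.OW.Psi ((owl hp c (d + 1)).Kk Pa Finset.univ) ((owl hp c (d + 1)).ev Pa) psi B (P × Ci p (d + 1)) (q := q)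
        (d := d) ∧
      (∀ (i j : ℕ) (J J' : Finset (Fin (d + 1))), i + j = d + 2 → 1 ≤ i → 1 ≤ j → J ∪ J' = Finset.univ →
        ∀ u ∈ (owl hp c (d + 1)).Kk Pa J, u ∈ gm (So hp c (d + 1) Pa) i →
          ∀ v ∈ (owl hp c (d + 1)).Kk Pa J', v ∈ gm (So hp c (d + 1) Pa) j →
            psi ⁅u, v⁆ = -B i j (gk i ((owl hp c (d + 1)).ev Pa u)) (gk j ((owl hp c (d + 1)).ev Pa v))) ∧
      ∀ g : P × Ci p (d + 1), g.1 ∈ R → ∀ u ∈ (owl hp c (d + 1)).Kk Pa Finset.univ, u ∈ gm (So hp c (d + 1) Pa) (d + 2) →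
        psi (g⁻¹ • u) - psi u = (κ g.1).ap (gk (d + 2) ((owl hp c (d + 1)).ev Pa u)) := by
  have hG' : G.y = sy Pa := funext hG
  rw [hG'] at h
  exact psy (owl hp c (d + 1)) hd hc hq hx h

end H88.OW
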