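import Pool.Agent.H51.S3.Unp

/-!
# [H88 OW QLN] MP_b39724_nt, stage 3, `p = 2`: all tuples unlinked gives a quasi Lie functional (S1 of think 1824)

As `unl`, `unp` (H88/S3/Unl, H51/S3/Unp), without any condition on `2`: there is a bilinear form `de` on the free Lie algebra with
`de s y = chi s y`, `de ⁅a, b⁆ c = de a ⁅b, c⁆ - de b ⁅a, c⁆`, `de a b + de b a = 0` and `de (u⁻¹ a) (u⁻¹ b) - de a b = - kap u ⁅a, b⁆`.
* `de_skew`: the antisymmetry. `qln`: the theorem. `ac`: the action on the free Lie algebra.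
-/

set_option autoImplicit false

open scoped Classical

noncomputable section

namespace H88.OW

open H62.BL H88.S3

variable {R : Type} [CommRing R]

section tb

variable {Om B : Type} [AddCommGroup B] [Module R B]

theorem de_skew {n : ℕ} (hn : 1 ≤ n) {chi : Om → LL R Om n →ₗ[R] B}
    {de : FreeLieAlgebra R Om →ₗ[R] FreeLieAlgebra R Om →ₗ[R] B}
    (hd : ∀ s, de (FreeLieAlgebra.of R s) = xc n (chi s))
    (h1 : ∀ a b c, de ⁅a, b⁆ c = de a ⁅b, c⁆ - de b ⁅a, c⁆)
    (H : ∀ D : Fin (n + 1) → Om, ∃ lam : PS R (FreeLieAlgebra.of R : Fin (n + 1) → FreeLieAlgebra R (Fin (n + 1)))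
        (List.finRange (n + 1)) →ₗ[R] B,
      ∀ (k : Fin (n + 1)) (w : List (Fin (n + 1))) (h : (k :: w).Perm (List.finRange (n + 1))) (hw : w.length = n),
        chi (D k) ⟨br (w.map D), ll_mem (by rw [List.length_map, hw])⟩ =
          - lam ⟨rb (FreeLieAlgebra.of R) (k :: w), ps_mem _ h⟩) (a b : FreeLieAlgebra R Om) :
    de a b + de b a = 0 := by
  have ha : ∀ u v : List Om, de (rb (FreeLieAlgebra.of R) u) (rb (FreeLieAlgebra.of R) v) +
      de (rb (FreeLieAlgebra.of R) v) (rb (FreeLieAlgebra.of R) u) = 0 := by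
    intro u v
    by_cases huv : u.length + v.length = n + 1
    · by_cases hu : u = []
      · subst hu
        have : rb (FreeLieAlgebra.of R : Om → FreeLieAlgebra R Om) [] = 0 := rfl
        rw [this, map_zero, map_zero, LinearMap.zero_apply, add_zero]
      by_cases hv : v = []
      · subst hv
        have : rb (FreeLieAlgebra.of R : Om → FreeLieAlgebra R Om) [] = 0 := rfl
        rw [this, map_zero, map_zero, LinearMap.zero_apply, add_zero]
      have hlen : (u ++ v).length = n + 1 := by rw [List.length_append]; exact huv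
      let D : Fin (n + 1) → Om := fun i => (u ++ v).get (i.cast hlen.symm)
      have hD : (List.finRange (n + 1)).map D = u ++ v := by
        refine List.ext_getElem (by simp [hlen]) fun i h1 h2 => ?_
        simp [D]
      set u0 := (List.finRange (n + 1)).take u.length with hu0
      set v0 := (List.finRange (n + 1)).drop u.length with hv0
      have e0 : u0 ++ v0 = List.finRange (n + 1) := List.take_append_drop _ _
      have eu : u0.map D = u := by rw [hu0, List.map_take, hD, List.take_left']; rfl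
      have ev' : v0.map D = v := by rw [hv0, List.map_drop, hD, List.drop_left']; rfl
      have hu0' : u0 ≠ [] := fun h => hu (by rw [← eu, h]; rfl)
      have hv0' : v0 ≠ [] := fun h => hv (by rw [← ev', h]; rfl)
      obtain ⟨lamF, H'⟩ := H D
      let P : FreeLieAlgebra R (Fin (n + 1)) →ₗ⁅R⁆ FreeLieAlgebra R Om := FreeLieAlgebra.lift R fun k => FreeLieAlgebra.of R (D k)
      have hP : ∀ k, P (FreeLieAlgebra.of R k) = FreeLieAlgebra.of R (D k) := fun k => FreeLieAlgebra.lift_of_apply _ _
      have hPw : ∀ w : List (Fin (n + 1)), P (rb (FreeLieAlgebra.of R) w) = rb (FreeLieAlgebra.of R) (w.map D) := by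
        intro w
        rw [rb_map, funext hP]
        induction w with
        | nil => rfl
        | cons a w ih =>
          by_cases hw : w = []
          · subst hw; rfl
          · rw [rb_cons _ a hw, ih, List.map_cons, rb_cons _ _ (by simpa using hw)]
      have m1 : ⁅rb (FreeLieAlgebra.of R) u0, rb (FreeLieAlgebra.of R) v0⁆ ∈
          PS R (FreeLieAlgebra.of R : Fin (n + 1) → FreeLieAlgebra R (Fin (n + 1))) (List.finRange (n + 1)) := by
        have := ps_lie1 (R := R) (FreeLieAlgebra.of R) u0 (ps_mem (R := R) (FreeLieAlgebra.of R) (List.Perm.refl v0))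
        rw [e0] at this
        exact this
      have m2 : ⁅rb (FreeLieAlgebra.of R) v0, rb (FreeLieAlgebra.of R) u0⁆ ∈
          PS R (FreeLieAlgebra.of R : Fin (n + 1) → FreeLieAlgebra R (Fin (n + 1))) (List.finRange (n + 1)) := by
        rw [← lie_skew]
        exact Submodule.neg_mem _ m1
      have r1 := de_mul hn hd h1 D lamF H' P hP u0 hu0' v0 (by rw [e0]) _ (ps_mem _ (List.Perm.refl v0)) m1
      have r2 := de_mul hn hd h1 D lamF H' P hP v0 hv0' u0 (by rw [← e0]; exact List.perm_append_comm) _
        (ps_mem _ (List.Perm.refl u0)) m2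
      rw [hPw, hPw, eu, ev'] at r1 r2
      rw [r1, r2]
      have : (⟨_, m2⟩ : PS R (FreeLieAlgebra.of R : Fin (n + 1) → FreeLieAlgebra R (Fin (n + 1))) (List.finRange (n + 1))) =
        - ⟨_, m1⟩ := Subtype.ext (lie_skew _ _).symm
      rw [this, map_neg]
      abel
    · rw [de_zero hd h1 u v huv _ (ps_mem _ (List.Perm.refl v)),
        de_zero hd h1 v u (by omega) _ (ps_mem _ (List.Perm.refl u)), add_zero]
  have hA := fl_span a
  have hB := fl_span b
  induction hA using Submodule.span_induction with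
  | mem a ha' =>
    obtain ⟨u, rfl⟩ := ha'
    induction hB using Submodule.span_induction with
    | mem b hb' =>
      obtain ⟨v, rfl⟩ := hb'
      exact ha u v
    | zero => rw [map_zero, map_zero, LinearMap.zero_apply, add_zero]
    | add x y _ _ hx hy =>
      rw [map_add, map_add, LinearMap.add_apply, add_add_add_comm, hx, hy, add_zero]
    | smul r x _ hx => rw [map_smul, map_smul, LinearMap.smul_apply, ← smul_add, hx, smul_zero]
  | zero => rw [map_zero, map_zero, LinearMap.zero_apply, add_zero]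
  | add x y _ _ hx hy =>
    rw [map_add, map_add, LinearMap.add_apply, add_add_add_comm, hx, hy, add_zero]
  | smul r x _ hx => rw [map_smul, map_smul, LinearMap.smul_apply, ← smul_add, hx, smul_zero]

/-- forms which satisfy the Jacobi identity and agree on the generators are equal -/
theorem de_uniq {de de' : FreeLieAlgebra R Om →ₗ[R] FreeLieAlgebra R Om →ₗ[R] B}
    (h1 : ∀ a b c, de ⁅a, b⁆ c = de a ⁅b, c⁆ - de b ⁅a, c⁆)
    (h1' : ∀ a b c, de' ⁅a, b⁆ c = de' a ⁅b, c⁆ - de' b ⁅a, c⁆)
    (h : ∀ s, de (FreeLieAlgebra.of R s) = de' (FreeLieAlgebra.of R s)) : de = de' := by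
  have key : ∀ u : List Om, de (rb (FreeLieAlgebra.of R) u) = de' (rb (FreeLieAlgebra.of R) u) := by
    intro u
    induction u with
    | nil =>
      have : rb (FreeLieAlgebra.of R : Om → FreeLieAlgebra R Om) [] = 0 := rfl
      rw [this, map_zero, map_zero]
    | cons s u ih =>
      by_cases hu : u = []
      · subst hu
        exact h s
      · refine LinearMap.ext fun c => ?_
        rw [rb_cons _ s hu, h1, h1', h, ih]
  refine LinearMap.ext fun a => ?_
  have hA := fl_span a
  induction hA using Submodule.span_induction with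
  | mem a ha' =>
    obtain ⟨u, rfl⟩ := ha'
    exact key u
  | zero => rw [map_zero, map_zero]
  | add x y _ _ hx hy => rw [map_add, map_add, hx, hy]
  | smul r x _ hx => rw [map_smul, map_smul, hx]

end tb

section unl

variable {G Om : Type} [Group G] [MulAction G Om]

variable (R Om) in
/-- the action on the free Lie algebra -/
def ac (u : G) : FreeLieAlgebra R Om →ₗ⁅R⁆ FreeLieAlgebra R Om :=
  FreeLieAlgebra.lift R fun a => FreeLieAlgebra.of R (u • a)

theorem ac_of (u : G) (a : Om) : ac R Om u (FreeLieAlgebra.of R a) = FreeLieAlgebra.of R (u • a) :=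
  FreeLieAlgebra.lift_of_apply _ _

theorem ac_rb (u : G) (w : List Om) :
    ac R Om u (rb (FreeLieAlgebra.of R) w) = rb (FreeLieAlgebra.of R) (w.map fun a => u • a) := by
  rw [rb_map, funext (ac_of u)]
  induction w with
  | nil => rfl
  | cons a w ih =>
    by_cases hw : w = []
    · subst hw; rfl
    · rw [rb_cons _ a hw, ih, List.map_cons, rb_cons _ _ (by simpa using hw)]

variable {ι : Type} {B : Type} [AddCommGroup B] [Module R B]

variable {s : ι → Om} {n : ℕ} {chi : ι → LL R Om n →ₗ[R] B} {kap : G → LL R Om (n + 1) →ₗ[R] B}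

/-- THEOREM (S1): all tuples unlinked gives a quasi Lie functional. -/
theorem qln (hn : 1 ≤ n) (hocc : ∀ (a : Om) (F : Finset ι), F.card ≤ n + 1 → ∃ v, v ∉ F ∧ s v = a)
    (H : ∀ D : Fin (n + 1) → ι, Function.Injective D → ∃ lam, P1 (G := G) s chi D lam ∧ P2 s kap D lam) :
    (∀ v v' : ι, s v = s v' → chi v = chi v') ∧
    ∃ de : FreeLieAlgebra R Om →ₗ[R] FreeLieAlgebra R Om →ₗ[R] B,
      (∀ v, de (FreeLieAlgebra.of R (s v)) = xc n (chi v)) ∧
      (∀ a b c, de ⁅a, b⁆ c = de a ⁅b, c⁆ - de b ⁅a, c⁆) ∧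
      (∀ a b, de a b + de b a = 0) ∧
      (∀ u v : List Om, u.length + v.length ≠ n + 1 →
        de (rb (FreeLieAlgebra.of R) u) (rb (FreeLieAlgebra.of R) v) = 0) ∧
      ∀ (u : G) a b, de (ac R Om u⁻¹ a) (ac R Om u⁻¹ b) - de a b = - xc (n + 1) (kap u) ⁅a, b⁆ := by
  have hex : ∀ a : Om, ∃ v, s v = a := fun a => by
    obtain ⟨v, _, hv⟩ := hocc a ∅ (by simp)
    exact ⟨v, hv⟩
  choose sg hsg using hex
  have hB : ∀ {v v' : ι}, s v = s v' → chi v = chi v' := fun h => claimB hn hocc H h
  have hchi : ∀ v, chi v = chi (sg (s v)) := fun v => hB (hsg (s v)).symm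
  refine ⟨fun v v' h => hB h, ?_⟩
  obtain ⟨de, hd, h1⟩ := der_exists fun a => xc n (chi (sg a))
  have hsk : ∀ a b, de a b + de b a = 0 := de_skew hn hd h1 (fun D0 => by
    obtain ⟨D, hD, _, hs⟩ := pick s (n + 1) hocc (n + 1) D0 ∅ (by rw [Finset.card_empty]; omega)
    obtain ⟨lam, a1, _⟩ := H D hD
    let Le : FreeLieAlgebra R (Fin (n + 1)) →ₗ⁅R⁆ FreeLieAlgebra R (Fin (n + 1) × G) :=
      FreeLieAlgebra.lift R fun k => FreeLieAlgebra.of R (k, 1)
    have hLe : ∀ w : List (Fin (n + 1)), Le (rb (FreeLieAlgebra.of R) w) = rb (FreeLieAlgebra.of R) (w.map fun k => (k, (1 : G))) := by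
      intro w
      have e : (fun k => Le (FreeLieAlgebra.of R k)) = fun k : Fin (n + 1) => FreeLieAlgebra.of R (k, (1 : G)) :=
        funext fun k => FreeLieAlgebra.lift_of_apply _ _
      rw [rb_map, e]
      induction w with
      | nil => rfl
      | cons a w ih =>
        by_cases hw : w = []
        · subst hw; rfl
        · rw [rb_cons _ a hw, ih, List.map_cons, rb_cons _ _ (by simpa using hw)]
    refine ⟨(lam.comp (ev.comp (Le : FreeLieAlgebra R (Fin (n + 1)) →ₗ[R] FreeLieAlgebra R (Fin (n + 1) × G)))).domRestrict _,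
      fun k w h hw => ?_⟩
    have hm : (w.map fun k => (k, (1 : G))).map (ew s D) = w.map D0 := by
      rw [List.map_map]
      refine List.map_congr_left fun j _ => ?_
      show (1 : G) • s (D j) = D0 j
      rw [one_smul, hs]
    have r1 := a1 k (w.map fun k => (k, 1)) (by
      rw [List.map_map]
      have : (Prod.fst ∘ fun k : Fin (n + 1) => (k, (1 : G))) = id := rfl
      rw [this, List.map_id]
      exact h)
    rw [hm, wv_eq (chi (D k)) (by rw [List.length_map, hw])] at r1
    have e1 : chi (sg (D0 k)) = chi (D k) := hB (by rw [hsg, hs])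
    rw [e1, r1]
    congr 1
    show lam (br ((k, 1) :: w.map fun k => (k, 1))) = lam (ev (Le (rb (FreeLieAlgebra.of R) (k :: w))))
    rw [hLe, ev_rb]
    rfl)
  refine ⟨de, fun v => ?_, h1, hsk, fun u v huv => de_zero hd h1 u v huv _ (ps_mem _ (List.Perm.refl v)), fun u a b => ?_⟩
  · rw [hd, hchi v]
  · -- equivariance
    let A : FreeLieAlgebra R Om →ₗ[R] FreeLieAlgebra R Om := (ac R Om u⁻¹ : FreeLieAlgebra R Om →ₗ[R] FreeLieAlgebra R Om)
    let de' : FreeLieAlgebra R Om →ₗ[R] FreeLieAlgebra R Om →ₗ[R] B := (de.compl₁₂ A A)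
    let Lb : FreeLieAlgebra R Om →ₗ[R] FreeLieAlgebra R Om →ₗ[R] FreeLieAlgebra R Om :=
      LinearMap.mk₂ R (fun a b => ⁅a, b⁆) (fun a b c => add_lie a b c) (fun r a b => smul_lie r a b)
        (fun a b c => lie_add a b c) (fun r a b => lie_smul r a b)
    let de'' : FreeLieAlgebra R Om →ₗ[R] FreeLieAlgebra R Om →ₗ[R] B := de - Lb.compr₂ (xc (n + 1) (kap u))
    have e' : ∀ a b, de' a b = de (ac R Om u⁻¹ a) (ac R Om u⁻¹ b) := fun a b => rfl
    have e'' : ∀ a b, de'' a b = de a b - xc (n + 1) (kap u) ⁅a, b⁆ := fun a b => rfl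
    have h1' : ∀ a b c, de' ⁅a, b⁆ c = de' a ⁅b, c⁆ - de' b ⁅a, c⁆ := by
      intro a b c
      rw [e', e', e', LieHom.map_lie, LieHom.map_lie, LieHom.map_lie, h1]
    have h1'' : ∀ a b c, de'' ⁅a, b⁆ c = de'' a ⁅b, c⁆ - de'' b ⁅a, c⁆ := by
      intro a b c
      rw [e'', e'', e'', h1, lie_lie, map_sub]
      abel
    have hg : ∀ a, de' (FreeLieAlgebra.of R a) = de'' (FreeLieAlgebra.of R a) := by
      intro a
      refine LinearMap.ext fun b => ?_
      have hb := fl_span b
      induction hb using Submodule.span_induction with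
      | mem b hb' =>
        obtain ⟨w, rfl⟩ := hb'
        rw [e', e'', ac_of, ac_rb]
        by_cases hw : w.length = n
        · have hw0 : w ≠ [] := fun h => by rw [h, List.length_nil] at hw; omega
          have r := claimA hn hocc H (v := sg a) (v' := sg (u⁻¹ • a)) (u := u⁻¹) (by rw [hsg, hsg]) (w.map fun b => u⁻¹ • b)
            (by rw [List.length_map, hw])
          have em : (w.map fun b => u⁻¹ • b).map (fun b => (u⁻¹)⁻¹ • b) = w := by
            rw [List.map_map]
            refine (List.map_congr_left fun x _ => ?_).trans (List.map_id _)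
            show (u⁻¹)⁻¹ • u⁻¹ • x = x
            rw [inv_inv, smul_inv_smul]
          rw [em, inv_inv, hsg, wv_eq (chi (sg a)) hw, wv_eq (chi (sg (u⁻¹ • a))) (by rw [List.length_map, hw]),
            wv_eq (kap u) (w := a :: w) (by rw [List.length_cons, hw])] at r
          rw [hd, hd, xc_rb n _ _ hw, xc_rb n _ _ (by rw [List.length_map, hw]), ← rb_cons _ a hw0,
            xc_rb (n + 1) _ _ (by rw [List.length_cons, hw])]
          have r2 := congrArg Neg.neg r
          rw [neg_neg] at r2
          rw [← r2]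
          abel
        · rw [hd, hd, xc_zero n _ (l := w) hw (ps_mem _ (List.Perm.refl w)),
            xc_zero n _ (l := w.map fun a => u⁻¹ • a) (by rw [List.length_map]; exact hw) (ps_mem _ (List.Perm.refl _))]
          by_cases hw0 : w = []
          · subst hw0
            have : rb (FreeLieAlgebra.of R : Om → FreeLieAlgebra R Om) [] = 0 := rfl
            rw [this, lie_zero, map_zero, sub_zero]
          · rw [← rb_cons _ a hw0, xc_zero (n + 1) _ (l := a :: w) (by rw [List.length_cons]; omega)
              (ps_mem _ (List.Perm.refl _)), sub_zero]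
      | zero => rw [map_zero, map_zero]
      | add x y _ _ hx hy => rw [map_add, map_add, hx, hy]
      | smul r x _ hx => rw [map_smul, map_smul, hx]
    have h2 := congrArg (fun F : FreeLieAlgebra R Om →ₗ[R] FreeLieAlgebra R Om →ₗ[R] B => F a b) (de_uniq h1' h1'' hg)
    have h3 : de (ac R Om u⁻¹ a) (ac R Om u⁻¹ b) = de a b - xc (n + 1) (kap u) ⁅a, b⁆ := h2
    rw [h3]
    abel

end unl

end H88.OW
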