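import Pool.Agent.H88.OW.Qln
import Pool.Agent.H82.S3.Lgi
import Pool.Agent.H82.S3.Dus

/-!
# [H88 OW RPR] MP_b39724_nt: elements of the free Lie algebra which represent the classes of the elements of `Sp P α` (for S1, S4 of think 1824)

`HL R α d`: the homogeneous elements of degree `d` of the free Lie algebra. `Rq P q i u a` (`1 ≤ i ≤ P.c`): `u ∈ gam_i`, `a` is homogeneous of degree `i`, and the leading part of `u` is `a`
(modulo the precision). Rules: `rq_of`, `rq_mul`, `rq_inv`, `rq_lie`, `rq_smul`, existence in both directions (`rq_ex`, `rq_ex'`), `rq_gk`, `rq_ker`. `ev_inj`: the free Lie algebra is contained in the functions on words.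
-/

set_option autoImplicit false

open scoped Classical commutatorElement

noncomputable section

namespace H88.OW

open H62.BL H88.S3 H82.S3 Pool.Agent.H61.Tu

open H73.S3 (gm Gr gk Du gk_surj gk_zero gk_mul gk_inv gk_of smul_gk gm_comm' gm_comm gm_smul)

section hl

variable {R α : Type} [CommRing R]

variable (R α) in
/-- the homogeneous elements of degree `d` -/
def HL (d : ℕ) : Submodule R (FreeLieAlgebra R α) :=
  Submodule.span R {x | ∃ w : List α, w.length = d ∧ x = rb (FreeLieAlgebra.of R) w}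

theorem hl_mem {d : ℕ} {w : List α} (h : w.length = d) : rb (FreeLieAlgebra.of R) w ∈ HL R α d :=
  Submodule.subset_span ⟨w, h, rfl⟩

theorem hl_of (a : α) : FreeLieAlgebra.of R a ∈ HL R α 1 := hl_mem (w := [a]) rfl

theorem ps_hl {l : List α} {z : FreeLieAlgebra R α} (hz : z ∈ PS R (FreeLieAlgebra.of R) l) : z ∈ HL R α l.length := by
  refine (Submodule.span_mono ?_) hz
  rintro _ ⟨w, hw, rfl⟩
  exact ⟨w, hw.length_eq, rfl⟩

theorem hl_lie {i j : ℕ} {a b : FreeLieAlgebra R α} (ha : a ∈ HL R α i) (hb : b ∈ HL R α j) : ⁅a, b⁆ ∈ HL R α (i + j) := by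
  induction ha using Submodule.span_induction with
  | mem a ha' =>
    obtain ⟨u, hu, rfl⟩ := ha'
    induction hb using Submodule.span_induction with
    | mem b hb' =>
      obtain ⟨v, hv, rfl⟩ := hb'
      have h1 := ps_hl (ps_lie1 (R := R) (FreeLieAlgebra.of R) u (ps_mem (R := R) (FreeLieAlgebra.of R) (List.Perm.refl v)))
      rw [List.length_append, hu, hv] at h1
      exact h1
    | zero => rw [lie_zero]; exact zero_mem _
    | add x y _ _ hx hy => rw [lie_add]; exact add_mem hx hy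
    | smul r x _ hx => rw [lie_smul]; exact Submodule.smul_mem _ _ hx
  | zero => rw [zero_lie]; exact zero_mem _
  | add x y _ _ hx hy => rw [add_lie]; exact add_mem hx hy
  | smul r x _ hx => rw [smul_lie]; exact Submodule.smul_mem _ _ hx

theorem hl_ev {i : ℕ} {a : FreeLieAlgebra R α} (ha : a ∈ HL R α i) : ev a ∈ LL R α i := by
  induction ha using Submodule.span_induction with
  | mem a ha' =>
    obtain ⟨u, hu, rfl⟩ := ha'
    rw [ev_rb]
    exact ll_mem hu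
  | zero => rw [map_zero]; exact zero_mem _
  | add x y _ _ hx hy => rw [map_add]; exact add_mem hx hy
  | smul r x _ hx => rw [map_smul]; exact Submodule.smul_mem _ _ hx

theorem ev_hl {i : ℕ} {x : List α → R} (hx : x ∈ LL R α i) : ∃ a ∈ HL R α i, ev a = x := by
  induction hx using Submodule.span_induction with
  | mem x hx' =>
    obtain ⟨u, hu, rfl⟩ := hx'
    exact ⟨_, hl_mem hu, ev_rb u⟩
  | zero => exact ⟨0, zero_mem _, map_zero _⟩
  | add x y _ _ hx hy =>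
    obtain ⟨a, ha, rfl⟩ := hx
    obtain ⟨b, hb, rfl⟩ := hy
    exact ⟨a + b, add_mem ha hb, map_add _ _ _⟩
  | smul r x _ hx =>
    obtain ⟨a, ha, rfl⟩ := hx
    exact ⟨r • a, Submodule.smul_mem _ _ ha, map_smul _ _ _⟩

theorem ev_lie (a b : FreeLieAlgebra R α) : (ev ⁅a, b⁆ : List α → R) = cv (ev a) (ev b) - cv (ev b) (ev a) := by
  letI : LieRing (FreeAlgebra R α) := LieRing.ofAssociativeRing
  show cf (FreeLieAlgebra.lift R (FreeAlgebra.ι R : α → FreeAlgebra R α) ⁅a, b⁆) = _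
  rw [LieHom.map_lie, Ring.lie_def, map_sub, cf_mul, cf_mul]
  rfl

/-- every element is a combination of brackets -/
theorem fl_comb (z : FreeLieAlgebra R α) : ∃ c : List α →₀ R, RB R (FreeLieAlgebra.of R) c = z := by
  have h := fl_span z
  induction h using Submodule.span_induction with
  | mem x hx =>
    obtain ⟨w, rfl⟩ := hx
    exact ⟨Finsupp.single w 1, by rw [RB_single, one_smul]⟩
  | zero => exact ⟨0, map_zero _⟩
  | add a b _ _ ha hb =>
    obtain ⟨c, rfl⟩ := ha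
    obtain ⟨d, rfl⟩ := hb
    exact ⟨c + d, map_add _ _ _⟩
  | smul r a _ ha =>
    obtain ⟨c, rfl⟩ := ha
    exact ⟨r • c, map_smul _ _ _⟩

theorem ev_inj {a b : FreeLieAlgebra R α} (h : (ev a : List α → R) = ev b) : a = b := by
  rw [← sub_eq_zero] at h ⊢
  rw [← map_sub] at h
  obtain ⟨c, hc⟩ := fl_comb (a - b)
  rw [← hc] at h ⊢
  refine laz_br c ?_ _
  rw [← h, RB, Finsupp.linearCombination_apply, Finsupp.linearCombination_apply, Finsupp.sum, Finsupp.sum, map_sum]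
  exact Finset.sum_congr rfl fun w _ => by rw [map_smul, ev_rb]

variable {G : Type} [Group G] [MulAction G α]

theorem ev_ac (g : G) (a : FreeLieAlgebra R α) : (ev (ac R α g a) : List α → R) = qa g (ev a) := by
  have h := fl_span a
  induction h using Submodule.span_induction with
  | mem x hx =>
    obtain ⟨w, rfl⟩ := hx
    rw [ac_rb, ev_rb, ev_rb, qa_br]
  | zero => rw [map_zero, map_zero]; rfl
  | add a b _ _ ha hb => rw [map_add, map_add, ha, hb, map_add]; rfl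
  | smul r a _ ha =>
    have e : ac R α g (r • a) = r • ac R α g a := (ac R α g : FreeLieAlgebra R α →ₗ[R] FreeLieAlgebra R α).map_smul r a
    rw [e, map_smul, ha, map_smul]
    rfl

theorem hl_ac {i : ℕ} (g : G) {a : FreeLieAlgebra R α} (ha : a ∈ HL R α i) : ac R α g a ∈ HL R α i := by
  induction ha using Submodule.span_induction with
  | mem a ha' =>
    obtain ⟨u, hu, rfl⟩ := ha'
    rw [ac_rb]
    exact hl_mem (by rw [List.length_map, hu])
  | zero => rw [map_zero]; exact zero_mem _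
  | add x y _ _ hx hy => rw [map_add]; exact add_mem hx hy
  | smul r x _ hx =>
    have e : ac R α g (r • x) = r • ac R α g x := (ac R α g : FreeLieAlgebra R α →ₗ[R] FreeLieAlgebra R α).map_smul r x
    rw [e]
    exact Submodule.smul_mem _ _ hx

end hl

section rq

variable (P : Par) {α : Type} (q : ℕ)

/-- `a` represents the leading part of `u` in degree `i` -/
structure Rq (i : ℕ) (u : Sp P α) (a : FreeLieAlgebra (ZMod q) α) : Prop where
  mem : u ∈ gm (Sp P α) i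
  hl : a ∈ HL (ZMod q) α i
  eq : ∀ hq : P.q (i - 1) ∣ q, dg P (i - 1) u = rc hq (ev a)

variable {P q}

theorem rc_cast {q' : ℕ} (h : q' ∣ q) (x : List α → ZMod q) (w : List α) :
    (rc h x : AW α (ZMod q')) w = ZMod.castHom h (ZMod q') (x w) := rfl

theorem rq_of (hq : P.q 0 ∣ q) (a : α) : Rq P q 1 (sy P a) (FreeLieAlgebra.of (ZMod q) a) where
  mem := Subgroup.mem_top _
  hl := hl_of a
  eq h := by
    show dg P 0 (sy P a) = _
    have e : (ev (FreeLieAlgebra.of (ZMod q) a) : List α → ZMod q) = el a := ev_rb [a]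
    rw [dg_sy, e]
    exact (rc_le h a).symm

theorem rq_mul {i : ℕ} (hi : 1 ≤ i) (hc : i ≤ P.c) {u v : Sp P α} {a b : FreeLieAlgebra (ZMod q) α} (hu : Rq P q i u a)
    (hv : Rq P q i v b) : Rq P q i (u * v) (a + b) := by
  obtain ⟨n, rfl⟩ : ∃ n, i = n + 1 := ⟨i - 1, by omega⟩
  refine ⟨mul_mem hu.mem hv.mem, add_mem hu.hl hv.hl, fun h => ?_⟩
  have h' : P.q n ∣ q := h
  have e1 : dg P n u = rc h' (ev a : List α → ZMod q) := hu.eq h
  have e2 : dg P n v = rc h' (ev b : List α → ZMod q) := hv.eq h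
  show dg P n (u * v) = rc h' (ev (a + b) : List α → ZMod q)
  rw [dg_mul P hc hu.mem hv.mem, e1, e2, ← map_add, map_add ev]
  rfl

theorem rq_one {i : ℕ} (hi : 1 ≤ i) (hc : i ≤ P.c) : Rq P q i (1 : Sp P α) 0 := by
  obtain ⟨n, rfl⟩ : ∃ n, i = n + 1 := ⟨i - 1, by omega⟩
  refine ⟨one_mem _, zero_mem _, fun h => ?_⟩
  have h' : P.q n ∣ q := h
  show dg P n (1 : Sp P α) = rc h' (ev (0 : FreeLieAlgebra (ZMod q) α) : List α → ZMod q)
  rw [dg_one P hc, map_zero ev]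
  exact (map_zero (rc h')).symm

theorem rq_zero {i : ℕ} (hi : 1 ≤ i) (hc : i ≤ P.c) {u : Sp P α} (hu : u ∈ gm (Sp P α) (i + 1)) : Rq P q i u 0 := by
  obtain ⟨n, rfl⟩ : ∃ n, i = n + 1 := ⟨i - 1, by omega⟩
  have h1 : u ∈ gm (Sp P α) (n + 1) := H73.S3.gm_anti _ hu
  refine ⟨h1, zero_mem _, fun h => ?_⟩
  have h' : P.q n ∣ q := h
  show dg P n u = rc h' (ev (0 : FreeLieAlgebra (ZMod q) α) : List α → ZMod q)
  rw [(dg_eq_zero P hc h1).2 hu, map_zero ev]
  exact (map_zero (rc h')).symm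

theorem rq_inv {i : ℕ} (hi : 1 ≤ i) (hc : i ≤ P.c) {u : Sp P α} {a : FreeLieAlgebra (ZMod q) α} (hu : Rq P q i u a) :
    Rq P q i u⁻¹ (-a) := by
  obtain ⟨n, rfl⟩ : ∃ n, i = n + 1 := ⟨i - 1, by omega⟩
  refine ⟨inv_mem hu.mem, neg_mem hu.hl, fun h => ?_⟩
  have h' : P.q n ∣ q := h
  have e1 : dg P n u = rc h' (ev a : List α → ZMod q) := hu.eq h
  have h2 := dg_mul P hc hu.mem (inv_mem hu.mem)
  rw [mul_inv_cancel, dg_one P hc, e1] at h2
  show dg P n u⁻¹ = rc h' (ev (-a) : List α → ZMod q)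
  rw [map_neg ev]
  have h3 : (rc h' (-(ev a : List α → ZMod q)) : AW α (ZMod (P.q n))) = - rc h' (ev a : List α → ZMod q) := map_neg (rc h') _
  rw [h3]
  exact eq_neg_of_add_eq_zero_right h2.symm

theorem rq_smul {Q : Type} [Group Q] [MulAction Q α] {i : ℕ} (hi : 1 ≤ i) (hc : i ≤ P.c) (g : Q) {u : Sp P α}
    {a : FreeLieAlgebra (ZMod q) α} (hu : Rq P q i u a) : Rq P q i (g • u) (ac (ZMod q) α g a) := by
  obtain ⟨n, rfl⟩ : ∃ n, i = n + 1 := ⟨i - 1, by omega⟩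
  refine ⟨gm_smul g hu.mem, hl_ac g hu.hl, fun h => ?_⟩
  have h' : P.q n ∣ q := h
  have e1 : dg P n u = rc h' (ev a : List α → ZMod q) := hu.eq h
  show dg P n (g • u) = rc h' (ev (ac (ZMod q) α g a) : List α → ZMod q)
  rw [dg_smul hc, e1, ev_ac]
  rfl

theorem rq_lie {i j : ℕ} (hi : 1 ≤ i) (hj : 1 ≤ j) (hc : i + j ≤ P.c) {u v : Sp P α} {a b : FreeLieAlgebra (ZMod q) α}
    (hq : P.q 0 ∣ q) (hu : Rq P q i u a) (hv : Rq P q j v b) : Rq P q (i + j) ⁅u, v⁆ ⁅a, b⁆ := by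
  obtain ⟨n, rfl⟩ : ∃ n, i = n + 1 := ⟨i - 1, by omega⟩
  obtain ⟨m, rfl⟩ : ∃ m, j = m + 1 := ⟨j - 1, by omega⟩
  refine ⟨gm_comm2 (by omega) (by omega) hu.mem hv.mem, hl_lie hu.hl hv.hl, fun h => ?_⟩
  have h1 : P.q n ∣ q := (P.q_dvd (Nat.zero_le n) (by omega)).trans hq
  have h2 : P.q m ∣ q := (P.q_dvd (Nat.zero_le m) (by omega)).trans hq
  have e1 : dg P n u = rc h1 (ev a : List α → ZMod q) := hu.eq h1
  have e2 : dg P m v = rc h2 (ev b : List α → ZMod q) := hv.eq h2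
  have key : ∀ k, k = n + m + 1 → ∀ h : P.q k ∣ q, dg P k ⁅u, v⁆ = rc h (ev ⁅a, b⁆ : List α → ZMod q) := by
    intro k hk h
    obtain ⟨-, r⟩ := dg_comm' P (i := n) (j := m) (k := k) hk (by omega) hu.mem hv.mem
      (P.q_dvd (by omega) (by omega)) (P.q_dvd (by omega) (by omega))
    rw [r, e1, e2, rc_rc h1 _ h, rc_rc h2 _ h, ev_lie]
    refine Eq.trans ?_ (map_sub (rc h) (cv (ev a) (ev b) : List α → ZMod q) (cv (ev b) (ev a) : List α → ZMod q)).symm
    congr 1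
    · exact (map_mul (rc h) _ _).symm
    · exact (map_mul (rc h) _ _).symm
  exact key _ (by omega) h

theorem rq_ex {i : ℕ} (hi : 1 ≤ i) (hc : i ≤ P.c) {u : Sp P α} (hu : u ∈ gm (Sp P α) i) :
    ∃ a : FreeLieAlgebra (ZMod q) α, Rq P q i u a := by
  obtain ⟨n, rfl⟩ : ∃ n, i = n + 1 := ⟨i - 1, by omega⟩
  obtain ⟨x, hx, hx'⟩ := ll_rd (dg_ll P hc hu)
  obtain ⟨a, ha, ha'⟩ := ev_hl (rd_ll (q := q) hx)
  refine ⟨a, hu, ha, fun h => ?_⟩
  have h' : P.q n ∣ q := h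
  show dg P n u = rc h' (ev a : List α → ZMod q)
  rw [ha']
  exact hx'.symm.trans (rc_rd h' x).symm

theorem rq_ex' {i : ℕ} (hi : 1 ≤ i) (hc : i ≤ P.c) (hq : P.q (i - 1) ∣ q) {a : FreeLieAlgebra (ZMod q) α}
    (ha : a ∈ HL (ZMod q) α i) : ∃ u : Sp P α, Rq P q i u a := by
  obtain ⟨n, rfl⟩ : ∃ n, i = n + 1 := ⟨i - 1, by omega⟩
  have h' : P.q n ∣ q := hq
  obtain ⟨u, hu, hu'⟩ := dg_surj P hc (rc_ll h' (hl_ev ha))
  exact ⟨u, hu, ha, fun _ => hu'⟩

theorem rq_gk {i : ℕ} (hi : 1 ≤ i) (hc : i ≤ P.c) (hq : P.q (i - 1) ∣ q) {u v : Sp P α} {a : FreeLieAlgebra (ZMod q) α}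
    (hu : Rq P q i u a) (hv : Rq P q i v a) : gk i u = gk i v := by
  obtain ⟨n, rfl⟩ : ∃ n, i = n + 1 := ⟨i - 1, by omega⟩
  exact gk_dg P hc hu.mem hv.mem ((hu.eq hq).trans (hv.eq hq).symm)

theorem rq_ker {i : ℕ} (hi : 1 ≤ i) (hc : i ≤ P.c) (hq : P.q (i - 1) ∣ q) {u v : Sp P α} {a b : FreeLieAlgebra (ZMod q) α}
    (hu : Rq P q i u a) (hv : Rq P q i v b) (h : gk i u = gk i v) :
    ∃ c ∈ HL (ZMod q) α i, a = b + (P.q (i - 1) : ZMod q) • c := by
  obtain ⟨n, rfl⟩ : ∃ n, i = n + 1 := ⟨i - 1, by omega⟩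
  have hq' : P.q n ∣ q := hq
  have h1 := rq_mul hi hc (rq_inv hi hc hv) hu
  have h2 : v⁻¹ * u ∈ gm (Sp P α) (n + 1 + 1) := by
    rw [← gk_zero h1.mem, gk_mul (inv_mem hv.mem) hu.mem, gk_inv hv.mem, h, neg_add_cancel]
  have h3 := (dg_eq_zero P hc h1.mem).2 h2
  have h4 : dg P n (v⁻¹ * u) = rc hq' (ev (-b + a) : List α → ZMod q) := h1.eq hq
  rw [h3] at h4
  obtain ⟨x, hx, hx'⟩ := ll_rd (hl_ev h1.hl)
  have h5 : rd (P.q n) x = 0 := by
    rw [← rc_rd hq']
    exact (congrArg (rc hq') hx').trans h4.symm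
  obtain ⟨z, hz, hz'⟩ := sat (P.q n) (n + 1) x hx (rd_eq_zero.1 h5)
  obtain ⟨c, hc1, hc2⟩ := ev_hl (rd_ll (q := q) hz)
  refine ⟨c, hc1, ?_⟩
  show a = b + (P.q n : ZMod q) • c
  have h6 : -b + a = (P.q n : ZMod q) • c := by
    refine ev_inj ?_
    rw [map_smul, hc2]
    have h7 : (ev (-b + a) : List α → ZMod q) = rd q x := hx'.symm
    rw [h7, hz']
    exact (rd_smul q (P.q n : ℤ) z).trans (by rw [Int.cast_natCast]; rfl)
  rw [← h6]
  abel

end rq

end H88.OW
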